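import Pool.Agent.SwP.Bridge

/-! The Hammersley–Welsh decomposition, extents of walks, and three sources of bridges with a
large displacement. -/

namespace Pool.Agent.SwP

variable [Pool.Agent.SwP.Dim]

open Finset
open scoped Classical

/-- core of the decomposition at the last minimum -/
theorem HW_core {x : ℝ} (hx : 0 < x) (n : ℕ) (P S₁ S₂ : Finset Word) (A B : Word → Word)
    (hAB : ∀ w, w = A w ++ B w) (hP : ∀ w ∈ P, w.length = n)
    (h1 : ∀ w ∈ P, ((0, true) : Step) :: rv (A w) ∈ S₁) (h2 : ∀ w ∈ P, B w ∈ S₂) :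
    ∑ w ∈ P, x ^ n ≤ x⁻¹ * ((∑ w ∈ S₁, x ^ w.length) * (∑ w ∈ S₂, x ^ w.length)) := by
  rw [sum_mul_sum, ← sum_product', mul_sum]
  refine sum_le_of_inj (fun w : Word => (((0, true) : Step) :: rv (A w), B w)) ?_ ?_ ?_ ?_
  · intro w hw
    rw [mem_product]
    exact ⟨h1 w hw, h2 w hw⟩
  · intro w _ w' _ heq
    simp only [Prod.mk.injEq, List.cons.injEq, true_and] at heq
    have h3 : A w = A w' := by
      have := congrArg rv heq.1
      rwa [rv_rv, rv_rv] at this
    rw [hAB w, hAB w', h3, heq.2]
  · intro w hw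
    have h3 := congrArg List.length (hAB w)
    rw [List.length_append, hP w hw] at h3
    simp only [List.length_cons, length_rv]
    rw [h3, pow_succ, pow_add]
    have : x⁻¹ * (x ^ (A w).length * x * x ^ (B w).length)
        = (x⁻¹ * x) * (x ^ (A w).length * x ^ (B w).length) := by ring
    rw [this, inv_mul_cancel₀ hx.ne', one_mul]
  · intro p _
    positivity

theorem saw_cons_up {t : Word} (ht : saw t) (hh : ∀ a b : Word, t = a ++ b → 0 ≤ D a 0) :
    saw (((0, true) : Step) :: t) := by
  intro a u b h hne hcon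
  rcases List.cons_eq_append_iff.1 h with ⟨h1, h2⟩ | ⟨a', h1, h2⟩
  · rcases List.append_eq_cons_iff.1 h2 with ⟨h3, _⟩ | ⟨u', h3, h4⟩
    · exact hne h3
    · have h5 := hh u' b h4
      rw [h3, D_cons] at hcon
      have h6 := congrFun hcon 0
      rw [Pi.add_apply] at h6
      simp [vec] at h6
      omega
  · exact ht a' u b h2 hne hcon

theorem Hi_cons_up {t : Word} (hh : ∀ a b : Word, t = a ++ b → 0 ≤ D a 0) :
    Hi (((0, true) : Step) :: t) := by
  intro u b h hne
  rcases List.cons_eq_append_iff.1 h with ⟨h1, _⟩ | ⟨u', h1, h2⟩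
  · exact absurd h1 hne
  · have h5 := hh u' b h2
    rw [h1, D_cons, Pi.add_apply]
    simp only [vec, Pi.single_eq_same, if_true]
    omega

/-- the two halves of a walk cut at its last minimum are half-space walks -/
theorem halves {n : ℕ} {w a b : Word} (hw : w ∈ walks n) (hab : w = a ++ b)
    (ha : ∀ c e : Word, a = c ++ e → 0 ≤ (- ev 0) (D e))
    (hb : ∀ u e : Word, b = u ++ e → u ≠ [] → (- ev 0) (D u) < 0) :
    ((0, true) : Step) :: rv a ∈ hs (n + 1) (n + 1) ∧ b ∈ hs (n + 1) (n + 1) := by
  rw [mem_walks] at hw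
  obtain ⟨hlen, hs⟩ := hw
  have hl := congrArg List.length hab
  rw [List.length_append] at hl
  rw [hab] at hs
  have hnn : ∀ c e : Word, rv a = c ++ e → 0 ≤ D c 0 := by
    intro c e hce
    have h1 : a = rv e ++ rv c := by
      have := congrArg rv hce
      rwa [rv_rv, rv_append] at this
    have h2 := ha _ _ h1
    rw [D_rv] at h2
    simpa using h2
  constructor
  · rw [mem_hs]
    refine ⟨?_, saw_cons_up hs.left.rv hnn, Hi_cons_up hnn, ?_⟩
    · rw [List.length_cons, length_rv]; omega
    · intro c e hce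
      have h1 := abs_D_le c 0
      have h2 := congrArg List.length hce
      rw [List.length_append, List.length_cons, length_rv] at h2
      have h3 := le_abs_self (D c 0)
      push_cast
      omega
  · rw [mem_hs]
    refine ⟨by omega, hs.right, ?_, ?_⟩
    · intro u e hue hne
      have := hb u e hue hne
      simpa using this
    · intro c e hce
      have h1 := abs_D_le c 0
      have h2 := congrArg List.length hce
      rw [List.length_append] at h2
      have h3 := le_abs_self (D c 0)
      push_cast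
      omega

/-- **Hammersley–Welsh**, generating function form. -/
theorem HW_main {x : ℝ} (hx : 0 < x) (n : ℕ) :
    ((walks n).card : ℝ) * x ^ n ≤ x⁻¹ * Real.exp (2 * Zt x (n + 1)) := by
  choose A B hAB hA hB using exists_last_max (- ev 0)
  have h := HW_core hx n (walks n) (hs (n + 1) (n + 1)) (hs (n + 1) (n + 1)) A B hAB
    (fun w hw => (mem_walks.1 hw).1) (fun w hw => (halves hw (hAB w) (hA w) (hB w)).1)
    (fun w hw => (halves hw (hAB w) (hA w) (hB w)).2)
  rw [sum_const, nsmul_eq_mul] at h
  refine h.trans ?_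
  have h1 := Hs_le hx.le (n + 1) (n + 1)
  have h2 := Hs_nonneg hx.le (n + 1) (n + 1)
  have h3 : Hs x (n + 1) (n + 1) * Hs x (n + 1) (n + 1)
      ≤ Real.exp (Zt x (n + 1)) * Real.exp (Zt x (n + 1)) :=
    mul_le_mul h1 h1 h2 (Real.exp_pos _).le
  rw [← Real.exp_add, ← two_mul] at h3
  exact mul_le_mul_of_nonneg_left h3 (by positivity)

/-- total weight of bridges of height larger than `t` -/
noncomputable def Wh (x : ℝ) (L t : ℕ) : ℝ :=
  ∑ w ∈ (wle L).filter (fun w => Br w ∧ (t : ℤ) < D w 0), x ^ w.length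

/-- first source: bridges are high because each height carries weight at most one -/
theorem source_one {μ : ℝ} (hμ : 1 ≤ μ) (hb : ∀ n, ((brs n).card : ℝ) ≤ μ ^ n) (L t : ℕ) :
    Zt μ⁻¹ L ≤ t + Wh μ⁻¹ L t := by
  have hx : (0 : ℝ) ≤ μ⁻¹ := by positivity
  have h1 : Zt μ⁻¹ L ≤ ∑ s ∈ range t, Bs μ⁻¹ L (s + 1) + Wh μ⁻¹ L t := by
    unfold Bs Zt Wh
    rw [← sum_biUnion]
    · rw [← sum_union]
      · refine sum_le_sum_of_subset_of_nonneg ?_ fun _ _ _ => pow_nonneg hx _
        intro w hw
        simp only [mem_filter] at hw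
        simp only [mem_union, mem_biUnion, mem_range, mem_filter]
        have h2 := hw.2.1.pos hw.2.2
        by_cases h3 : (t : ℤ) < D w 0
        · right; exact ⟨hw.1, hw.2.1, h3⟩
        · left
          refine ⟨(D w 0).toNat - 1, by omega, hw.1, hw.2.1, ?_⟩
          push_cast
          omega
      · rw [disjoint_left]
        intro w h2 h3
        simp only [mem_biUnion, mem_range, mem_filter] at h2 h3
        obtain ⟨s, h4, _, _, h5⟩ := h2
        have := h3.2.2
        rw [h5] at this
        push_cast at this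
        omega
    · intro i _ j _ hij
      rw [Function.onFun, disjoint_left]
      intro w h1 h2
      simp only [mem_filter] at h1 h2
      apply hij
      have := h1.2.2.symm.trans h2.2.2
      omega
  have h2 : ∑ s ∈ range t, Bs μ⁻¹ L (s + 1) ≤ t := by
    calc ∑ s ∈ range t, Bs μ⁻¹ L (s + 1) ≤ ∑ s ∈ range t, (1 : ℝ) :=
          sum_le_sum fun s _ => Bs_le_one hμ hb L _
      _ = t := by simp
  linarith

end Pool.Agent.SwP
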