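import Pool.Agent.SwP.Law

/-! Blocks: families of bridges with a common displacement. -/

namespace Pool.Agent.SwP

variable [Pool.Agent.SwP.Dim]
set_option maxHeartbeats 400000

open Finset
open scoped Classical

/-- the law of a family of words, weighted by the reference weight -/
theorem exists_law {x : ℝ} (hx : 0 < x) {F : Finset Word} {E : ℝ}
    (hE : Real.exp (-E) ≤ ∑ w ∈ F, x ^ w.length) :
    ∃ B : Law, (∀ i, B.f i ∈ F) ∧ ∀ L, Dom x L B (Real.exp E) := by
  set Z := ∑ w ∈ F, x ^ w.length with hZ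
  have hZ0 : 0 < Z := (Real.exp_pos _).trans_le hE
  refine ⟨⟨{w // w ∈ F}, inferInstance, fun w => x ^ w.1.length / Z, fun w => w.1, ?_, ?_⟩, ?_, ?_⟩
  · intro w; positivity
  · rw [← sum_div, div_eq_one_iff_eq hZ0.ne', hZ, ← sum_coe_sort F (fun w => x ^ w.length)]
  · intro w; exact w.2
  · intro L φ h0 hL
    have h1 : ∑ w : {w // w ∈ F}, x ^ w.1.length / Z * φ w.1
        = Z⁻¹ * ∑ w ∈ F, x ^ w.length * φ w := by
      rw [← sum_coe_sort F (fun w => x ^ w.length * φ w), mul_sum]
      exact sum_congr rfl fun w _ => by ring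
    change ∑ w : {w // w ∈ F}, x ^ w.1.length / Z * φ w.1 ≤ _
    rw [h1]
    have h2 : ∑ w ∈ F, x ^ w.length * φ w ≤ ∑ w ∈ wle L, x ^ w.length * φ w := by
      have h3 : ∑ w ∈ F, x ^ w.length * φ w
          = ∑ w ∈ F.filter (fun w => w.length ≤ L), x ^ w.length * φ w := by
        rw [sum_filter]
        refine sum_congr rfl fun w _ => ?_
        split_ifs with h
        · rfl
        · rw [hL w (by omega), mul_zero]
      rw [h3]
      refine sum_le_sum_of_subset_of_nonneg ?_ fun w _ _ => mul_nonneg (by positivity) (h0 w)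
      intro w hw
      rw [mem_filter] at hw
      exact mem_wle.2 hw.2
    have h4 : Z⁻¹ ≤ Real.exp E := by
      rw [inv_le_comm₀ hZ0 (Real.exp_pos _), ← Real.exp_neg]
      exact hE
    have h5 : 0 ≤ ∑ w ∈ wle L, x ^ w.length * φ w :=
      sum_nonneg fun w _ => mul_nonneg (by positivity) (h0 w)
    calc Z⁻¹ * ∑ w ∈ F, x ^ w.length * φ w
        ≤ Z⁻¹ * ∑ w ∈ wle L, x ^ w.length * φ w :=
          mul_le_mul_of_nonneg_left h2 (by positivity)
      _ ≤ _ := mul_le_mul_of_nonneg_right h4 h5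

/-- selection of a displacement -/
theorem pigeon {x : ℝ} {S : Finset Word} {n : ℕ} {E : ℝ}
    (hS : ∀ w ∈ S, w.length ≤ n) (hE : Real.exp (-E) ≤ ∑ w ∈ S, x ^ w.length) :
    ∃ (v : Pt) (F : Finset Word), F ⊆ S ∧ (∀ w ∈ F, D w = v) ∧
      Real.exp (-(E + (dd : ℝ) * Real.log (2 * n + 1))) ≤ ∑ w ∈ F, x ^ w.length := by
  have hn : (0 : ℝ) < 2 * n + 1 := by positivity
  have hb : Real.exp (-(E + (dd : ℝ) * Real.log (2 * n + 1)))
      = Real.exp (-E) / ((2 * n + 1) ^ dd : ℕ) := by
    rw [neg_add, Real.exp_add, Real.exp_neg ((dd : ℝ) * _)]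
    have : Real.exp ((dd : ℝ) * Real.log (2 * n + 1)) = (2 * (n : ℝ) + 1) ^ dd := by
      have h := Real.exp_nat_mul (Real.log (2 * (n : ℝ) + 1)) dd
      rw [Real.exp_log hn] at h
      exact h
    rw [this]
    push_cast
    rfl
  have hne : S.Nonempty := by
    by_contra h
    rw [not_nonempty_iff_eq_empty] at h
    rw [h, sum_empty] at hE
    exact absurd hE (not_le.2 (Real.exp_pos _))
  have hcard : (S.image D).card ≤ (2 * n + 1) ^ dd := by
    have hsub : S.image D ⊆ Fintype.piFinset (fun _ : Ix => Icc (-(n : ℤ)) n) := by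
      intro p hp
      obtain ⟨w, hw, rfl⟩ := mem_image.1 hp
      rw [Fintype.mem_piFinset]
      intro k
      rw [mem_Icc]
      have h1 := abs_D_le w k
      have h2 := hS w hw
      rw [abs_le] at h1
      constructor <;> omega
    refine (card_le_card hsub).trans ?_
    rw [Fintype.card_piFinset, prod_const, card_univ, Fintype.card_fin, Int.card_Icc]
    apply le_of_eq
    congr 1
    omega
  obtain ⟨v, hv, hv2⟩ := exists_le_sum_fiber_of_maps_to_of_nsmul_le_sum
    (s := S) (t := S.image D) (f := D) (w := fun w => x ^ w.length)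
    (b := Real.exp (-E) / ((2 * n + 1) ^ dd : ℕ))
    (fun a ha => mem_image_of_mem D ha) (hne.image D) (by
      refine le_trans ?_ hE
      rw [nsmul_eq_mul]
      have h3 : (0 : ℝ) < ((2 * n + 1) ^ dd : ℕ) := by positivity
      rw [mul_div_assoc', div_le_iff₀ h3, mul_comm]
      have h4 : ((S.image D).card : ℝ) ≤ ((2 * n + 1) ^ dd : ℕ) := by exact_mod_cast hcard
      exact mul_le_mul_of_nonneg_left h4 (Real.exp_pos _).le)
  refine ⟨v, S.filter (fun w => D w = v), filter_subset _ _, fun w hw => (mem_filter.1 hw).2, ?_⟩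
  rw [hb]
  exact hv2

end Pool.Agent.SwP
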