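import Pool.Agent.SwP.Count

/-! Generating functions of bridges and the decomposition of half-space walks. -/

namespace Pool.Agent.SwP

variable [Pool.Agent.SwP.Dim]

open Finset
open scoped Classical

/-- sum over all bridges of length at most `L` -/
noncomputable def V (x : ℝ) (L : ℕ) : ℝ := ∑ w ∈ (wle L).filter Br, x ^ w.length
/-- sum over all nonempty bridges of length at most `L` -/
noncomputable def Zt (x : ℝ) (L : ℕ) : ℝ :=
  ∑ w ∈ (wle L).filter (fun w => Br w ∧ w ≠ []), x ^ w.length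
/-- sum over the bridges of height `s` of length at most `L` -/
noncomputable def Bs (x : ℝ) (L s : ℕ) : ℝ :=
  ∑ w ∈ (wle L).filter (fun w => Br w ∧ D w 0 = (s : ℤ)), x ^ w.length

theorem V_eq (x : ℝ) (L : ℕ) : V x L = 1 + Zt x L := by
  unfold V Zt
  have h : (wle L).filter Br = insert [] ((wle L).filter (fun w => Br w ∧ w ≠ [])) := by
    ext w
    simp only [mem_filter, mem_insert, mem_wle]
    constructor
    · rintro ⟨h1, h2⟩
      by_cases h0 : w = []
      · left; exact h0
      · right; exact ⟨h1, h2, h0⟩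
    · rintro (h | h)
      · subst h; exact ⟨by simp, Br_nil⟩
      · exact ⟨h.1, h.2.1⟩
  rw [h, sum_insert (by simp)]
  simp

theorem V_sum (x : ℝ) (L : ℕ) : V x L = ∑ m ∈ range (L + 1), ((brs m).card : ℝ) * x ^ m := by
  unfold V
  rw [sum_filter, sum_wle]
  refine sum_congr rfl fun m _ => ?_
  rw [← sum_filter]
  rw [show (wd m).filter Br = brs m from rfl]
  rw [sum_congr rfl (g := fun _ => x ^ m) fun w hw => by rw [(mem_brs.1 hw).1]]
  rw [sum_const, nsmul_eq_mul]

theorem Zt_nonneg {x : ℝ} (hx : 0 ≤ x) (L : ℕ) : 0 ≤ Zt x L :=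
  sum_nonneg fun _ _ => pow_nonneg hx _

theorem V_mono {x : ℝ} (hx : 0 ≤ x) {L L' : ℕ} (h : L ≤ L') : V x L ≤ V x L' := by
  unfold V
  refine sum_le_sum_of_subset_of_nonneg ?_ fun _ _ _ => pow_nonneg hx _
  intro w hw
  rw [mem_filter, mem_wle] at hw ⊢
  exact ⟨hw.1.trans h, hw.2⟩

theorem Zt_mono {x : ℝ} (hx : 0 ≤ x) {L L' : ℕ} (h : L ≤ L') : Zt x L ≤ Zt x L' := by
  have := V_mono hx h
  rw [V_eq, V_eq] at this
  linarith

theorem le_one_of_pow_le {y : ℝ} {L : ℕ} (h : ∀ k : ℕ, y ^ k ≤ k * L + 1) : y ≤ 1 := by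
  by_contra hy
  push Not at hy
  have ht : 0 < y - 1 := by linarith
  obtain ⟨k, hk⟩ := exists_nat_gt ((2 * (L : ℝ) + 2) / (y - 1) ^ 2)
  rw [div_lt_iff₀ (by positivity)] at hk
  have hL : (0 : ℝ) ≤ L := Nat.cast_nonneg L
  have hk0 : (1 : ℝ) ≤ k := by
    rcases Nat.eq_zero_or_pos k with h0 | h0
    · subst h0; norm_num at hk; nlinarith
    · exact_mod_cast h0
  have h1 : 1 + (k : ℝ) * (y - 1) ≤ y ^ k := by
    have := one_add_mul_le_pow (a := y - 1) (by linarith) k
    simpa using this
  have h2 := h (2 * k)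
  rw [mul_comm 2 k, pow_mul] at h2
  push_cast at h2
  have h3 : ((k : ℝ) * (y - 1)) ^ 2 ≤ (y ^ k) ^ 2 := by
    refine pow_le_pow_left₀ (by positivity) ?_ 2
    linarith
  nlinarith

/-- A uniquely decodable family of bridges has total weight at most one. -/
theorem power_trick {μ : ℝ} (hμ : 1 ≤ μ) (hb : ∀ n, ((brs n).card : ℝ) ≤ μ ^ n)
    (C : Finset Word) (L : ℕ) (hC : ∀ u ∈ C, Br u) (hL : ∀ u ∈ C, u.length ≤ L)
    (huniq : ∀ u ∈ C, ∀ u' ∈ C, ∀ e, u' = u ++ e → Hi e → e = []) :
    ∑ u ∈ C, (μ⁻¹) ^ u.length ≤ 1 := by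
  have hμ0 : 0 < μ := by linarith
  have hx : (0 : ℝ) ≤ μ⁻¹ := by positivity
  have hV : ∀ M, V μ⁻¹ M ≤ M + 1 := by
    intro M
    rw [V_sum]
    calc ∑ m ∈ range (M + 1), ((brs m).card : ℝ) * μ⁻¹ ^ m ≤ ∑ m ∈ range (M + 1), (1 : ℝ) := by
          refine sum_le_sum fun m _ => ?_
          have h1 := hb m
          have h2 : (0 : ℝ) < μ ^ m := by positivity
          rw [inv_pow, mul_inv_le_iff₀ h2, one_mul]
          exact h1
      _ = M + 1 := by simp
  have key : ∀ M, (∑ u ∈ C, (μ⁻¹) ^ u.length) * V μ⁻¹ M ≤ V μ⁻¹ (L + M) := by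
    intro M
    unfold V
    rw [sum_mul_sum, ← sum_product']
    refine sum_le_of_inj (fun p : Word × Word => p.1 ++ p.2) ?_ ?_ ?_ ?_
    · rintro ⟨u, v⟩ h
      rw [mem_product, mem_filter, mem_wle] at h
      rw [mem_filter, mem_wle, List.length_append]
      have h5 := hL u h.1
      have h6 := h.2.1
      simp only at h6 ⊢
      exact ⟨by omega, (hC u h.1).append h.2.2⟩
    · rintro ⟨u, v⟩ h ⟨u', v'⟩ h' heq
      rw [mem_coe, mem_product, mem_filter] at h h'
      simp only at heq h h'
      rcases List.append_eq_append_iff.1 heq with ⟨e, he1, he2⟩ | ⟨e, he1, he2⟩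
      · have hH := h.2.2.hi
        rw [he2] at hH
        have := huniq u h.1 u' h'.1 e he1 hH.left
        subst this
        simp only [List.append_nil, List.nil_append] at he1 he2
        rw [he1, he2]
      · have hH := h'.2.2.hi
        rw [he2] at hH
        have := huniq u' h'.1 u h.1 e he1 hH.left
        subst this
        simp only [List.append_nil, List.nil_append] at he1 he2
        rw [he1, he2]
    · rintro ⟨u, v⟩ _
      simp only [List.length_append]
      rw [pow_add]
    · intro w _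
      positivity
  have h0 : 0 ≤ ∑ u ∈ C, (μ⁻¹) ^ u.length := sum_nonneg fun _ _ => pow_nonneg hx _
  have hpow : ∀ k : ℕ, (∑ u ∈ C, (μ⁻¹) ^ u.length) ^ k ≤ V μ⁻¹ (k * L) := by
    intro k
    induction k with
    | zero =>
      rw [pow_zero, V_eq]
      have := Zt_nonneg hx (0 * L)
      linarith
    | succ k ih =>
      rw [pow_succ']
      refine (mul_le_mul_of_nonneg_left ih h0).trans ((key (k * L)).trans ?_)
      rw [show L + k * L = (k + 1) * L by ring]
  refine le_one_of_pow_le (L := L) fun k => ?_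
  have := (hpow k).trans (hV (k * L))
  push_cast at this
  exact this

theorem Bs_le_one {μ : ℝ} (hμ : 1 ≤ μ) (hb : ∀ n, ((brs n).card : ℝ) ≤ μ ^ n) (L s : ℕ) :
    Bs μ⁻¹ L s ≤ 1 := by
  unfold Bs
  refine power_trick hμ hb _ L ?_ ?_ ?_
  · intro u hu; exact (mem_filter.1 hu).2.1
  · intro u hu; exact mem_wle.1 (mem_filter.1 hu).1
  · intro u hu u' hu' e he hH
    by_contra hne
    have h1 := (mem_filter.1 hu).2.2
    have h2 := (mem_filter.1 hu').2.2
    have h3 := hH e [] (by simp) hne
    rw [he, D_append, Pi.add_apply] at h2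
    omega

/-- the last maximum of a linear functional along a word -/
theorem exists_last_max (f : Pt →+ ℤ) (w : Word) : ∃ a b : Word, w = a ++ b ∧
    (∀ c e : Word, a = c ++ e → 0 ≤ f (D e)) ∧
    (∀ u e : Word, b = u ++ e → u ≠ [] → f (D u) < 0) := by
  induction w with
  | nil =>
    refine ⟨[], [], rfl, ?_, ?_⟩
    · intro c e h
      have h1 := List.append_eq_nil_iff.1 h.symm
      rw [h1.2]; simp
    · intro u e h hne
      have h1 := List.append_eq_nil_iff.1 h.symm
      exact absurd h1.1 hne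
  | cons s w ih =>
    obtain ⟨a, b, rfl, ha, hb⟩ := ih
    by_cases h : 0 ≤ f (D (s :: a))
    · refine ⟨s :: a, b, by simp, ?_, hb⟩
      intro c e hce
      rcases List.cons_eq_append_iff.1 hce with ⟨h1, h2⟩ | ⟨c', h1, h2⟩
      · rw [h2]; exact h
      · exact ha c' e h2
    · refine ⟨[], s :: (a ++ b), by simp, ?_, ?_⟩
      · intro c e h1
        have h2 := List.append_eq_nil_iff.1 h1.symm
        rw [h2.2]; simp
      · push Not at h
        intro u e hue hne
        rcases List.cons_eq_append_iff.1 hue with ⟨h1, _⟩ | ⟨c, h1, h2⟩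
        · exact absurd h1 hne
        · rcases List.append_eq_append_iff.1 h2 with ⟨g, hg1, hg2⟩ | ⟨g, hg1, hg2⟩
          · -- c = a ++ g, b = g ++ e
            rw [h1, hg1, ← List.cons_append, D_append, map_add]
            by_cases hg : g = []
            · subst hg; simpa using h
            · have := hb g e hg2 hg
              linarith
          · -- a = c ++ g
            have h3 := ha c g hg1
            have h4 : f (D (s :: a)) = f (D u) + f (D g) := by
              rw [h1, hg1, ← List.cons_append, D_append, map_add]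
            linarith

/-- half-space walks -/
noncomputable def hs (L S : ℕ) : Finset Word :=
  (wle L).filter fun w => saw w ∧ Hi w ∧ ∀ a b : Word, w = a ++ b → D a 0 ≤ S

/-- sum over half-space walks -/
noncomputable def Hs (x : ℝ) (L S : ℕ) : ℝ := ∑ w ∈ hs L S, x ^ w.length

theorem mem_hs {L S : ℕ} {w : Word} : w ∈ hs L S ↔
    w.length ≤ L ∧ saw w ∧ Hi w ∧ ∀ a b : Word, w = a ++ b → D a 0 ≤ S := by
  unfold hs; rw [mem_filter, mem_wle]

theorem hs_mono {L S S' : ℕ} (h : S ≤ S') : hs L S ⊆ hs L S' := by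
  intro w hw
  rw [mem_hs] at hw ⊢
  refine ⟨hw.1, hw.2.1, hw.2.2.1, fun a b hab => (hw.2.2.2 a b hab).trans ?_⟩
  exact_mod_cast h

theorem Hs_nonneg {x : ℝ} (hx : 0 ≤ x) (L S : ℕ) : 0 ≤ Hs x L S :=
  sum_nonneg fun _ _ => pow_nonneg hx _

theorem Hs_mono {x : ℝ} (hx : 0 ≤ x) {L S S' : ℕ} (h : S ≤ S') : Hs x L S ≤ Hs x L S' :=
  sum_le_sum_of_subset_of_nonneg (hs_mono h) fun _ _ _ => pow_nonneg hx _

theorem sum_hs_diff {x : ℝ} (hx : 0 ≤ x) (L S : ℕ) :
    ∑ w ∈ hs L (S + 1) \ hs L S, x ^ w.length ≤ Bs x L (S + 1) * Hs x L S := by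
  unfold Bs Hs
  rw [sum_mul_sum, ← sum_product']
  choose A B hAB hA hB using exists_last_max (ev 0)
  refine sum_le_of_inj (fun w : Word => (A w, (B w).map (refl 0).g)) ?_ ?_ ?_ ?_
  · intro w hw
    rw [mem_sdiff, mem_hs, mem_hs] at hw
    obtain ⟨⟨h1, h2, h3, h4⟩, h5⟩ := hw
    have hlen := congrArg List.length (hAB w)
    rw [List.length_append] at hlen
    have hsw := h2
    rw [hAB w] at hsw
    have hHw := h3
    rw [hAB w] at hHw
    have hmax : ∀ c e : Word, w = c ++ e → D c 0 ≤ D (A w) 0 := by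
      intro c e hce
      rw [hAB w] at hce
      rcases List.append_eq_append_iff.1 hce with ⟨g, hg1, hg2⟩ | ⟨g, hg1, hg2⟩
      · rw [hg1, D_append, Pi.add_apply]
        by_cases hg : g = []
        · subst hg; simp
        · have := hB w g e hg2 hg
          rw [ev_apply] at this
          linarith
      · have := hA w c g hg1
        rw [ev_apply] at this
        rw [hg1, D_append, Pi.add_apply]
        linarith
    have hD : D (A w) 0 = ((S + 1 : ℕ) : ℤ) := by
      refine le_antisymm (h4 (A w) (B w) (hAB w)) ?_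
      by_contra hcon
      push Not at hcon
      apply h5
      refine ⟨h1, h2, h3, fun c e hce => ?_⟩
      have := hmax c e hce
      push_cast at hcon ⊢
      omega
    rw [mem_product]
    simp only [mem_filter, mem_wle, mem_hs]
    refine ⟨⟨by omega, ⟨hsw.left, ?_, hHw.left⟩, hD⟩, ?_, hsw.right.map (refl 0), ?_, ?_⟩
    · intro c e hce
      have := hA w c e hce
      rwa [ev_apply] at this
    · rw [List.length_map]; omega
    · intro u e hue hne
      obtain ⟨u', e', h6, h7, h8⟩ := List.map_eq_append_iff.1 hue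
      have hne' : u' ≠ [] := by
        intro h0; apply hne; rw [← h7, h0]; rfl
      have := hB w u' e' h6 hne'
      rw [ev_apply] at this
      rw [← h7, D_refl, if_pos rfl]
      linarith
    · intro u e hue
      obtain ⟨u', e', h6, h7, h8⟩ := List.map_eq_append_iff.1 hue
      rw [← h7, D_refl, if_pos rfl]
      by_cases hne' : A w ++ u' = []
      · have h9 := List.append_eq_nil_iff.1 hne'
        rw [h9.2]; simp
      · have h10 : w = (A w ++ u') ++ e' := by
          rw [List.append_assoc, ← h6]; exact hAB w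
        have h11 := h3 _ _ h10 hne'
        rw [D_append, Pi.add_apply, hD] at h11
        push_cast at h11
        linarith
  · intro w _ w' _ heq
    simp only [Prod.mk.injEq] at heq
    have h1 : B w = B w' := by
      have := congrArg (List.map (refl 0).g) heq.2
      rwa [refl_refl, refl_refl] at this
    rw [hAB w, hAB w', heq.1, h1]
  · intro w _
    simp only [List.length_map]
    rw [← pow_add, ← List.length_append, ← hAB w]
  · intro p _
    positivity

theorem Hs_succ {x : ℝ} (hx : 0 ≤ x) (L S : ℕ) :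
    Hs x L (S + 1) ≤ Hs x L S + Bs x L (S + 1) * Hs x L S := by
  have h := sum_hs_diff hx L S
  have h2 : Hs x L (S + 1) = ∑ w ∈ hs L (S + 1) \ hs L S, x ^ w.length + Hs x L S := by
    unfold Hs
    rw [sum_sdiff (hs_mono (Nat.le_succ S))]
  rw [h2]; linarith

theorem Hs_zero (x : ℝ) (L : ℕ) : Hs x L 0 = 1 := by
  unfold Hs
  have : hs L 0 = {[]} := by
    ext w
    rw [mem_hs, mem_singleton]
    constructor
    · rintro ⟨_, _, h3, h4⟩
      by_contra hne
      have h5 := h3 w [] (by simp) hne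
      have h6 := h4 w [] (by simp)
      push_cast at h6
      omega
    · rintro rfl
      refine ⟨by simp, saw_nil, Hi_nil, ?_⟩
      intro a b hab
      have h1 := List.append_eq_nil_iff.1 hab.symm
      rw [h1.1]; simp
  rw [this]; simp

theorem Hs_le_exp {x : ℝ} (hx : 0 ≤ x) (L S : ℕ) :
    Hs x L S ≤ Real.exp (∑ s ∈ range S, Bs x L (s + 1)) := by
  induction S with
  | zero => rw [Hs_zero]; simp
  | succ S ih =>
    rw [sum_range_succ, Real.exp_add]
    have h1 := Hs_succ hx L S
    have h2 := Hs_nonneg hx L S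
    have h3 : Bs x L (S + 1) + 1 ≤ Real.exp (Bs x L (S + 1)) := Real.add_one_le_exp _
    calc Hs x L (S + 1) ≤ Hs x L S * (Bs x L (S + 1) + 1) := by linarith
      _ ≤ Hs x L S * Real.exp (Bs x L (S + 1)) := mul_le_mul_of_nonneg_left h3 h2
      _ ≤ _ := mul_le_mul_of_nonneg_right ih (Real.exp_pos _).le

theorem sum_Bs_le {x : ℝ} (hx : 0 ≤ x) (L S : ℕ) :
    ∑ s ∈ range S, Bs x L (s + 1) ≤ Zt x L := by
  unfold Bs Zt
  rw [← sum_biUnion]
  · refine sum_le_sum_of_subset_of_nonneg ?_ fun _ _ _ => pow_nonneg hx _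
    intro w hw
    simp only [mem_biUnion, mem_range, mem_filter] at hw ⊢
    obtain ⟨s, _, h1, h2, h3⟩ := hw
    refine ⟨h1, h2, ?_⟩
    rintro rfl
    simp at h3
    omega
  · intro i _ j _ hij
    rw [Function.onFun, disjoint_left]
    intro w h1 h2
    simp only [mem_filter] at h1 h2
    apply hij
    have := h1.2.2.symm.trans h2.2.2
    omega

theorem Hs_le {x : ℝ} (hx : 0 ≤ x) (L S : ℕ) : Hs x L S ≤ Real.exp (Zt x L) :=
  (Hs_le_exp hx L S).trans (Real.exp_le_exp.2 (sum_Bs_le hx L S))

end Pool.Agent.SwP
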