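import Mathlib

/-! The dimension as an instance: all files of `SwP`, `SwX`, `SwR` are about `ℤ ^ (k + 2)`. -/

namespace Pool.Agent.SwP

/-- the dimension is `k + 2` -/
class Dim where
  k : ℕ

/-- the dimension -/
abbrev dd [Dim] : ℕ := Dim.k + 2

/-- the coordinates -/
abbrev Ix [Dim] := Fin (Dim.k + 2)

end Pool.Agent.SwP
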