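import Mathlib
import Pool.Agent.SwP.Dim

/-! Words over the six unit steps of `ℤ³`. -/

namespace Pool.Agent.SwP

variable [Pool.Agent.SwP.Dim]

open Finset
open scoped Classical

/-- points of the lattice -/
abbrev Pt := Ix → ℤ
/-- a unit step: an axis and a sign -/
abbrev Step := Ix × Bool
/-- a word of steps -/
abbrev Word := List Step

/-- the vector of a step -/
def vec (s : Step) : Pt := Pi.single s.1 (if s.2 then 1 else -1)

/-- displacement of a word -/
def D (w : Word) : Pt := (w.map vec).sum

@[simp] theorem D_nil : D [] = 0 := rfl
theorem D_cons (s : Step) (w : Word) : D (s :: w) = vec s + D w := by simp [D]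
theorem D_append (u v : Word) : D (u ++ v) = D u + D v := by simp [D]
theorem D_singleton (s : Step) : D [s] = vec s := by simp [D]

theorem vec_ne_zero (s : Step) : vec s ≠ 0 := by
  intro h
  have := congrFun h s.1
  simp only [vec, Pi.single_eq_same, Pi.zero_apply] at this
  split_ifs at this <;> omega

theorem abs_vec_le (s : Step) (k : Ix) : |vec s k| ≤ 1 := by
  unfold vec
  by_cases h : k = s.1
  · subst h
    rw [Pi.single_eq_same]
    split_ifs
    · simp
    · simp
  · rw [Pi.single_eq_of_ne h]; simp

theorem abs_D_le (w : Word) (k : Ix) : |D w k| ≤ w.length := by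
  induction w with
  | nil => simp
  | cons s w ih =>
    rw [D_cons, Pi.add_apply, List.length_cons]
    have h1 := abs_vec_le s k
    have h2 := abs_add_le (vec s k) (D w k)
    push_cast
    linarith

/-- A lattice symmetry acting on steps. -/
structure Sy where
  g : Step → Step
  A : Pt →+ Pt
  ginj : Function.Injective g
  Ainj : Function.Injective A
  h : ∀ s, vec (g s) = A (vec s)

theorem Sy.D_map (S : Sy) (w : Word) : D (w.map S.g) = S.A (D w) := by
  induction w with
  | nil => simp
  | cons s w ih => rw [List.map_cons, D_cons, D_cons, ih, S.h, map_add]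

/-- composition of symmetries -/
def Sy.comp (S T : Sy) : Sy where
  g := S.g ∘ T.g
  A := S.A.comp T.A
  ginj := S.ginj.comp T.ginj
  Ainj := by
    intro a b hab
    exact T.Ainj (S.Ainj hab)
  h := by
    intro s
    simp [S.h, T.h]

/-- reflection of the coordinate `k` -/
def refl (k : Ix) : Sy where
  g := fun s => if s.1 = k then (s.1, !s.2) else s
  A := { toFun := fun v j => if j = k then - v j else v j
         map_zero' := by ext j; simp
         map_add' := by intro a b; ext j; simp only [Pi.add_apply]; split_ifs <;> ring }
  ginj := by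
    intro a b hab
    simp only at hab
    obtain ⟨a1, a2⟩ := a
    obtain ⟨b1, b2⟩ := b
    simp only at hab
    split_ifs at hab with h1 h2 h2
    · simp only [Prod.mk.injEq, Bool.not_inj_iff] at hab ⊢; exact hab
    · simp only [Prod.mk.injEq] at hab; exact absurd (hab.1.symm.trans h1) h2
    · simp only [Prod.mk.injEq] at hab; exact absurd (hab.1.trans h2) h1
    · exact hab
  Ainj := by
    intro a b hab
    ext j
    have := congrFun hab j
    simp only [AddMonoidHom.coe_mk, ZeroHom.coe_mk] at this
    split_ifs at this
    · linarith
    · exact this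
  h := by
    intro s
    ext j
    obtain ⟨i, b⟩ := s
    simp only [AddMonoidHom.coe_mk, ZeroHom.coe_mk, vec]
    by_cases h1 : i = k
    · subst h1
      rw [if_pos rfl]
      by_cases h2 : j = i
      · subst h2
        cases b <;> simp
      · simp [h2]
    · rw [if_neg h1]
      by_cases h2 : j = k
      · subst h2
        have h3 : j ≠ i := fun h => h1 h.symm
        simp [Pi.single_eq_of_ne h3]
      · simp [h2]

/-- reflection of all coordinates except `0` -/
def rtr : Sy where
  g := fun s => if s.1 = 0 then s else (s.1, !s.2)
  A := { toFun := fun v j => if j = 0 then v j else - v j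
         map_zero' := by ext j; simp
         map_add' := by intro a b; ext j; simp only [Pi.add_apply]; split_ifs <;> ring }
  ginj := by
    intro a b hab
    simp only at hab
    obtain ⟨a1, a2⟩ := a
    obtain ⟨b1, b2⟩ := b
    simp only at hab
    split_ifs at hab with h1 h2 h2
    · exact hab
    · simp only [Prod.mk.injEq] at hab; exact absurd (hab.1.symm.trans h1) h2
    · simp only [Prod.mk.injEq] at hab; exact absurd (hab.1.trans h2) h1
    · simp only [Prod.mk.injEq, Bool.not_inj_iff] at hab ⊢; exact hab
  Ainj := by
    intro a b hab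
    ext j
    have := congrFun hab j
    simp only [AddMonoidHom.coe_mk, ZeroHom.coe_mk] at this
    split_ifs at this
    · exact this
    · linarith
  h := by
    intro s
    ext j
    obtain ⟨i, b⟩ := s
    simp only [AddMonoidHom.coe_mk, ZeroHom.coe_mk, vec]
    by_cases h1 : i = 0
    · rw [if_pos h1]
      by_cases h2 : j = 0
      · rw [if_pos h2]
      · rw [if_neg h2]
        have h3 : j ≠ i := fun h => h2 (h.trans h1)
        simp [Pi.single_eq_of_ne h3]
    · rw [if_neg h1]
      by_cases h2 : j = 0
      · rw [if_pos h2]
        have h3 : j ≠ i := fun h => h1 (h.symm.trans h2)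
        simp [Pi.single_eq_of_ne h3]
      · rw [if_neg h2]
        by_cases h3 : j = i
        · subst h3
          cases b <;> simp
        · simp [Pi.single_eq_of_ne h3]

/-- permutation of the coordinates -/
def perm (σ : Equiv.Perm (Ix)) : Sy where
  g := fun s => (σ s.1, s.2)
  A := { toFun := fun v j => v (σ.symm j)
         map_zero' := by ext j; simp
         map_add' := by intro a b; ext j; simp }
  ginj := by
    intro a b hab
    simp only [Prod.mk.injEq, EmbeddingLike.apply_eq_iff_eq] at hab
    exact Prod.ext hab.1 hab.2
  Ainj := by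
    intro a b hab
    ext j
    have := congrFun hab (σ j)
    simpa using this
  h := by
    intro s
    ext j
    obtain ⟨i, b⟩ := s
    simp only [AddMonoidHom.coe_mk, ZeroHom.coe_mk, vec]
    by_cases h : j = σ i
    · subst h; simp
    · have h2 : σ.symm j ≠ i := by
        intro h3; apply h; rw [← h3]; simp
      rw [Pi.single_eq_of_ne h, Pi.single_eq_of_ne h2]

/-- inversion -/
def ineg : Sy where
  g := fun s => (s.1, !s.2)
  A := { toFun := fun v => - v
         map_zero' := by simp
         map_add' := by intro a b; ext j; simp; ring }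
  ginj := by
    intro a b hab
    simp only [Prod.mk.injEq, Bool.not_inj_iff] at hab
    exact Prod.ext hab.1 hab.2
  Ainj := by
    intro a b hab
    simpa using hab
  h := by
    intro s
    ext j
    obtain ⟨i, b⟩ := s
    simp only [AddMonoidHom.coe_mk, ZeroHom.coe_mk, vec]
    by_cases h : j = i
    · subst h; cases b <;> simp
    · simp [Pi.single_eq_of_ne h]

@[simp] theorem refl_A (k : Ix) (v : Pt) (j : Ix) :
    (refl k).A v j = if j = k then - v j else v j := rfl
@[simp] theorem perm_A (σ : Equiv.Perm (Ix)) (v : Pt) (j : Ix) :
    (perm σ).A v j = v (σ.symm j) := rfl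

theorem rtr_A (v : Pt) (j : Ix) : rtr.A v j = if j = 0 then v j else - v j := rfl

theorem D_rtr (w : Word) (j : Ix) :
    D (w.map rtr.g) j = if j = 0 then D w j else - D w j := by
  rw [Sy.D_map]; rfl

theorem rtr_rtr (w : Word) : (w.map rtr.g).map rtr.g = w := by
  rw [List.map_map]
  have : (rtr.g ∘ rtr.g) = id := by
    funext s
    obtain ⟨i, b⟩ := s
    simp only [Function.comp, rtr, id]
    by_cases h : i = 0
    · simp [h]
    · simp [h]
  rw [this, List.map_id]

theorem D_refl (k : Ix) (w : Word) (j : Ix) :
    D (w.map (refl k).g) j = if j = k then - D w j else D w j := by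
  rw [Sy.D_map]; rfl

theorem refl_refl (k : Ix) (w : Word) : (w.map (refl k).g).map (refl k).g = w := by
  rw [List.map_map]
  have : ((refl k).g ∘ (refl k).g) = id := by
    funext s
    obtain ⟨i, b⟩ := s
    simp only [Function.comp, refl, id]
    by_cases h : i = k
    · simp [h]
    · simp [h]
  rw [this, List.map_id]

theorem D_reverse (w : Word) : D w.reverse = D w := by
  simp only [D, List.map_reverse]
  exact List.sum_reverse _

/-- the reversed walk -/
def rv (w : Word) : Word := (w.map ineg.g).reverse

theorem D_rv (w : Word) : D (rv w) = - D w := by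
  unfold rv
  rw [D_reverse, Sy.D_map]; rfl

theorem rv_append (u v : Word) : rv (u ++ v) = rv v ++ rv u := by
  simp [rv]

theorem rv_rv (w : Word) : rv (rv w) = w := by
  unfold rv
  rw [List.map_reverse, List.reverse_reverse, List.map_map]
  have : (ineg.g ∘ ineg.g) = id := by
    funext s
    obtain ⟨i, b⟩ := s
    simp [ineg]
  rw [this, List.map_id]

@[simp] theorem length_rv (w : Word) : (rv w).length = w.length := by simp [rv]

/-- self-avoiding: no nonempty block has zero displacement -/
def saw (l : Word) : Prop :=
  ∀ a u b : Word, l = a ++ (u ++ b) → u ≠ [] → D u ≠ 0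

/-- all final pieces have nonnegative first displacement -/
def Lo (l : Word) : Prop := ∀ a u : Word, l = a ++ u → 0 ≤ D u 0

/-- all nonempty initial pieces have positive first displacement -/
def Hi (l : Word) : Prop := ∀ u b : Word, l = u ++ b → u ≠ [] → 0 < D u 0

theorem saw_nil : saw [] := by
  intro a u b h hu
  have h1 := List.append_eq_nil_iff.1 h.symm
  exact absurd (List.append_eq_nil_iff.1 h1.2).1 hu

theorem Lo_nil : Lo [] := by
  intro a u h
  have h1 := List.append_eq_nil_iff.1 h.symm
  rw [h1.2]; simp

theorem Hi_nil : Hi [] := by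
  intro u b h hu
  have h1 := List.append_eq_nil_iff.1 h.symm
  exact absurd h1.1 hu

theorem saw.left {a b : Word} (h : saw (a ++ b)) : saw a := by
  intro c u d hc hu
  refine h c u (d ++ b) ?_ hu
  rw [hc]; simp

theorem saw.right {a b : Word} (h : saw (a ++ b)) : saw b := by
  intro c u d hc hu
  refine h (a ++ c) u d ?_ hu
  rw [hc]; simp

theorem Lo.right {a b : Word} (h : Lo (a ++ b)) : Lo b := by
  intro c u hc
  refine h (a ++ c) u ?_
  rw [hc]; simp

theorem Hi.left {a b : Word} (h : Hi (a ++ b)) : Hi a := by
  intro u d hu hne
  refine h u (d ++ b) ?_ hne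
  rw [hu]; simp

theorem Lo.append {a b : Word} (ha : Lo a) (hb : Lo b) : Lo (a ++ b) := by
  intro c u hcu
  rcases List.append_eq_append_iff.1 hcu with ⟨e, he1, he2⟩ | ⟨e, he1, he2⟩
  · exact hb e u he2
  · rw [he2, D_append, Pi.add_apply]
    have h1 := ha c e he1
    have h2 := hb [] b (by simp)
    exact add_nonneg h1 h2

theorem Hi.append {a b : Word} (ha : Hi a) (hb : Hi b) : Hi (a ++ b) := by
  intro u d hud hne
  rcases List.append_eq_append_iff.1 hud with ⟨e, he1, he2⟩ | ⟨e, he1, he2⟩
  · rw [he1, D_append, Pi.add_apply]
    by_cases h0 : a = []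
    · subst h0
      have : e ≠ [] := by
        intro h; apply hne; rw [he1, h]; rfl
      have := hb e d he2 this
      simpa using this
    · have h1 := ha a [] (by simp) h0
      by_cases h2 : e = []
      · subst h2; simpa using h1
      · have := hb e d he2 h2
        exact add_pos h1 this
  · exact ha u e he1 hne

/-- concatenation of two self-avoiding words separated by a linear functional -/
theorem saw.append_of {a b : Word} (f : Pt →+ ℤ) (ha : saw a) (hb : saw b)
    (hl : ∀ c u : Word, a = c ++ u → 0 ≤ f (D u))
    (hh : ∀ u d : Word, b = u ++ d → u ≠ [] → 0 < f (D u)) : saw (a ++ b) := by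
  intro c u d hcd hne
  rcases List.append_eq_append_iff.1 hcd with ⟨e, he1, he2⟩ | ⟨e, he1, he2⟩
  · exact hb e u d he2 hne
  · rcases List.append_eq_append_iff.1 he2 with ⟨g, hg1, hg2⟩ | ⟨g, hg1, hg2⟩
    · exact ha c u g (by rw [he1, hg1]) hne
    · by_cases h0 : g = []
      · subst h0
        rw [List.append_nil] at hg1
        exact ha c u [] (by rw [he1, hg1]; simp) hne
      · intro hcon
        have h1 := hl c e he1
        have h2 := hh g d hg2 h0
        rw [hg1, D_append] at hcon
        have h3 : f (D e + D g) = 0 := by rw [hcon, map_zero]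
        rw [map_add] at h3
        linarith

/-- evaluation at a coordinate -/
def ev (k : Ix) : Pt →+ ℤ := Pi.evalAddMonoidHom (fun _ => ℤ) k

@[simp] theorem ev_apply (k : Ix) (v : Pt) : ev k v = v k := rfl

theorem saw.append {a b : Word} (ha : saw a) (hb : saw b) (hl : Lo a) (hh : Hi b) :
    saw (a ++ b) :=
  saw.append_of (ev 0) ha hb hl hh

theorem saw.map {l : Word} (S : Sy) (h : saw l) : saw (l.map S.g) := by
  intro a u b hab hne hcon
  obtain ⟨a', r', h1, h2, h3⟩ := List.map_eq_append_iff.1 hab
  obtain ⟨u', b', h4, h5, h6⟩ := List.map_eq_append_iff.1 h3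
  refine h a' u' b' (by rw [h1, h4]) ?_ ?_
  · intro h0
    apply hne
    rw [← h5, h0]; rfl
  · rw [← h5, S.D_map] at hcon
    exact S.Ainj (by rw [hcon, map_zero])

theorem saw.rv {l : Word} (h : saw l) : saw (rv l) := by
  intro a u b hab hne hcon
  have h1 : l = SwP.rv b ++ (SwP.rv u ++ SwP.rv a) := by
    have := congrArg SwP.rv hab
    rw [rv_rv, rv_append, rv_append, List.append_assoc] at this
    exact this
  refine h _ _ _ h1 ?_ ?_
  · intro h0
    apply hne
    have := congrArg SwP.rv h0
    rw [rv_rv] at this
    rw [this]; rfl
  · rw [D_rv, hcon, neg_zero]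

/-- the bridge condition (in the direction of the coordinate `0`) -/
structure Br (l : Word) : Prop where
  saw : saw l
  lo : Lo l
  hi : Hi l

theorem Br_nil : Br [] := ⟨saw_nil, Lo_nil, Hi_nil⟩

theorem Br.append {a b : Word} (ha : Br a) (hb : Br b) : Br (a ++ b) :=
  ⟨ha.saw.append hb.saw ha.lo hb.hi, ha.lo.append hb.lo, ha.hi.append hb.hi⟩

/-- positivity of the height of nonempty bridges -/
theorem Br.pos {a : Word} (ha : Br a) (h : a ≠ []) : 0 < D a 0 := ha.hi a [] (by simp) h

theorem saw_iff {w : Word} : saw w ↔
    ∀ i j : ℕ, i < j → j ≤ w.length → D (w.take i) ≠ D (w.take j) := by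
  constructor
  · intro h i j hij hj heq
    have e1 : w = w.take i ++ ((w.take j).drop i ++ w.drop j) := by
      rw [← List.append_assoc]
      have : w.take i ++ (w.take j).drop i = w.take j := by
        have h2 : (w.take j).take i = w.take i := by
          rw [List.take_take, min_eq_left hij.le]
        rw [← h2, List.take_append_drop]
      rw [this, List.take_append_drop]
    refine h _ _ _ e1 ?_ ?_
    · intro h0
      have := congrArg List.length h0
      rw [List.length_drop, List.length_take, List.length_nil, min_eq_left hj] at this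
      omega
    · have h2 : (w.take j).take i = w.take i := by
        rw [List.take_take, min_eq_left hij.le]
      have h3 : D (w.take j) = D (w.take i) + D ((w.take j).drop i) := by
        rw [← h2, ← D_append, List.take_append_drop]
      rw [← heq] at h3
      simpa using h3
  · intro h a u b hw hne hcon
    have hlen := congrArg List.length hw
    rw [List.length_append, List.length_append] at hlen
    have hu := List.length_pos_of_ne_nil hne
    have t1 : w.take a.length = a := by rw [hw]; simp
    have t2 : w.take (a.length + u.length) = a ++ u := by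
      rw [hw, List.take_add]; simp
    refine h a.length (a.length + u.length) (by omega) (by omega) ?_
    rw [t1, t2, D_append, hcon, add_zero]

end Pool.Agent.SwP
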