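import Pool.Agent.SwP.Law
import Pool.Agent.SwP.Walk

/-! Chains of blocks; the averaging operators. -/

namespace Pool.Agent.SwP

variable [Pool.Agent.SwP.Dim]
set_option maxHeartbeats 400000

open Finset
open scoped Classical

theorem Br.pts_range {u : Word} (h : Br u) {p : Pt} (hp : p ∈ pts u) : 0 ≤ p 0 ∧ p 0 ≤ D u 0 := by
  obtain ⟨a, b, hab, rfl⟩ := mem_pts.1 hp
  constructor
  · by_cases ha : a = []
    · subst ha; simp
    · exact (h.hi a b hab ha).le
  · have := h.lo a b hab
    rw [hab, D_append, Pi.add_apply]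
    omega

end Pool.Agent.SwP
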