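import Pool.Agent.SwP.Unfold

/-! Self-avoiding loops and the removal of repetitions. -/

namespace Pool.Agent.SwP

variable [Pool.Agent.SwP.Dim]

open Finset
open scoped Classical

/-- a self-avoiding loop -/
def Loop (w : Word) : Prop := w ≠ [] ∧ D w = 0 ∧
  ∀ c e d : Word, w = c ++ (e ++ d) → e ≠ [] → (c ≠ [] ∨ d ≠ []) → D e ≠ 0

theorem Loop.rotate {a b : Word} (h : Loop (a ++ b)) : Loop (b ++ a) := by
  obtain ⟨h1, h2, h3⟩ := h
  refine ⟨?_, ?_, ?_⟩
  · intro h0
    have h4 := List.append_eq_nil_iff.1 h0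
    exact h1 (by rw [h4.1, h4.2]; rfl)
  · rw [D_append, add_comm, ← D_append]; exact h2
  · intro c e d hw hne hcd hDe
    rcases List.append_eq_append_iff.1 hw with ⟨g, hg1, hg2⟩ | ⟨g, hg1, hg2⟩
    · -- c = b ++ g, a = g ++ (e ++ d)
      refine h3 g e (d ++ b) (by rw [hg2]; simp) hne ?_ hDe
      by_cases hb : b = []
      · rcases hcd with h | h
        · left; intro h0; apply h; rw [hg1, hb, h0]; rfl
        · right; intro h0; exact h (List.append_eq_nil_iff.1 h0).1
      · right; intro h0; exact hb (List.append_eq_nil_iff.1 h0).2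
    · -- b = c ++ g, e ++ d = g ++ a
      rcases List.append_eq_append_iff.1 hg2 with ⟨k, hk1, hk2⟩ | ⟨k, hk1, hk2⟩
      · -- g = e ++ k, d = k ++ a
        refine h3 (a ++ c) e k (by rw [hg1, hk1]; simp) hne ?_ hDe
        by_cases ha : a = []
        · rcases hcd with h | h
          · left; intro h0; exact h (List.append_eq_nil_iff.1 h0).2
          · right; intro h0; apply h; rw [hk2, h0, ha]; rfl
        · left; intro h0; exact ha (List.append_eq_nil_iff.1 h0).1
      · -- e = g ++ k, a = k ++ d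
        by_cases hk : k = []
        · subst hk
          rw [List.append_nil] at hk1
          rw [List.nil_append] at hk2
          refine h3 (a ++ c) e [] (by rw [hg1, hk1]; simp) hne ?_ hDe
          left
          intro h0
          have h4 := List.append_eq_nil_iff.1 h0
          rcases hcd with h | h
          · exact h h4.2
          · exact h (by rw [← hk2]; exact h4.1)
        · refine h3 k (d ++ c) g (by rw [hk2, hg1]; simp) ?_ (Or.inl hk) ?_
          · intro h0
            have h4 := List.append_eq_nil_iff.1 h0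
            rcases hcd with h | h
            · exact h h4.2
            · exact h h4.1
          · have h5 := h2
            rw [hk2, hg1, D_append, D_append, D_append] at h5
            rw [hk1, D_append] at hDe
            rw [D_append]
            have : D d + D c = (D k + D d + (D c + D g)) - (D g + D k) := by abel
            rw [this, h5, hDe, sub_zero]

theorem Loop.length {w : Word} (h : Loop w) : 2 ≤ w.length := by
  obtain ⟨h1, h2, h3⟩ := h
  by_contra hcon
  have h4 := List.length_pos_of_ne_nil h1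
  have h5 : w.length = 1 := by omega
  obtain ⟨s, rfl⟩ := List.length_eq_one_iff.1 h5
  rw [D_singleton] at h2
  exact vec_ne_zero s h2

/-- cutting a rotated loop into two bridges -/
theorem Loop.cut {w : Word} (h : Loop w) (hh : ∀ c e : Word, w = c ++ e → 0 ≤ D c 0) :
    ∃ c d : Word, w = c ++ d ∧ Br (((0, true) : Step) :: c) ∧ Br (((0, true) : Step) :: rv d) := by
  obtain ⟨t, s, rfl⟩ : ∃ (t : Word) (s : Step), w = t ++ [s] :=
    ⟨w.dropLast, w.getLast h.1, (List.dropLast_append_getLast h.1).symm⟩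
  have hlen := h.length
  rw [List.length_append, List.length_singleton] at hlen
  obtain ⟨c, g, rfl, hc, hg⟩ := exists_last_max (ev 0) t
  have hcne : c ≠ [] := by
    rintro rfl
    have h1 : g ≠ [] := by
      intro h0
      rw [h0] at hlen
      simp at hlen
    have h2 := hg g [] (by simp) h1
    have h3 := hh g [s] (by simp)
    rw [ev_apply] at h2
    linarith
  obtain ⟨h1, h2, h3⟩ := h
  have hdsaw : saw (g ++ [s]) := by
    intro a u b hab hne hcon
    exact h3 (c ++ a) u b (by rw [List.append_assoc c g, hab]; simp) hne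
      (Or.inl (fun h0 => hcne (List.append_eq_nil_iff.1 h0).1)) hcon
  have hcsaw : saw c := by
    intro a u b hab hne hcon
    exact h3 a u (b ++ (g ++ [s])) (by rw [hab]; simp) hne (Or.inr (by simp)) hcon
  have hD0 : D c 0 + D (g ++ [s]) 0 = 0 := by
    have := congrFun h2 0
    rw [List.append_assoc, D_append, Pi.add_apply] at this
    simpa using this
  have hDc : 0 ≤ D c 0 := hh c (g ++ [s]) (by simp)
  have hgle : ∀ u b : Word, g ++ [s] = u ++ b → D u 0 ≤ 0 := by
    intro u b hub
    rcases List.append_eq_append_iff.1 hub with ⟨k, hk1, hk2⟩ | ⟨k, hk1, hk2⟩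
    · -- u = g ++ k, [s] = k ++ b
      rcases List.append_eq_singleton_iff.1 hk2.symm with ⟨h5, h6⟩ | ⟨h5, h6⟩
      · rw [hk1, h5, List.append_nil]
        by_cases hg0 : g = []
        · rw [hg0]; simp
        · have := hg g [] (by simp) hg0
          rw [ev_apply] at this; exact this.le
      · rw [hk1, h5]; linarith
    · by_cases hu : u = []
      · rw [hu]; simp
      · have := hg u k hk1 hu
        rw [ev_apply] at this; exact this.le
  have hLoc : Lo c := fun a u hau => by
    have := hc a u hau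
    rwa [ev_apply] at this
  refine ⟨c, g ++ [s], by simp, ⟨?_, ?_, ?_⟩, ⟨?_, ?_, ?_⟩⟩
  · exact saw_cons_up hcsaw fun a b hab => hh a (b ++ (g ++ [s])) (by rw [hab]; simp)
  · intro a u hau
    rcases List.cons_eq_append_iff.1 hau with ⟨h5, h6⟩ | ⟨a', h5, h6⟩
    · rw [h6, D_cons, Pi.add_apply]
      simp only [vec, Pi.single_eq_same, if_true]
      omega
    · exact hLoc a' u h6
  · exact Hi_cons_up fun a b hab => hh a (b ++ (g ++ [s])) (by rw [hab]; simp)
  · refine saw_cons_up hdsaw.rv fun a b hab => ?_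
    have h5 : g ++ [s] = rv b ++ rv a := by
      have := congrArg rv hab
      rwa [rv_rv, rv_append] at this
    have h6 := hh (c ++ rv b) (rv a) (by rw [List.append_assoc c g, h5]; simp)
    have h7 := congrArg (fun w => D w 0) h5
    simp only [D_append, D_rv, Pi.add_apply, Pi.neg_apply] at h7
    rw [D_append, Pi.add_apply, D_rv, Pi.neg_apply] at h6
    rw [D_append, Pi.add_apply] at hD0
    linarith
  · intro a u hau
    rcases List.cons_eq_append_iff.1 hau with ⟨h5, h6⟩ | ⟨a', h5, h6⟩
    · rw [h6, D_cons, Pi.add_apply, D_rv, Pi.neg_apply]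
      simp only [vec, Pi.single_eq_same, if_true]
      linarith
    · have h7 : g ++ [s] = rv u ++ rv a' := by
        have := congrArg rv h6
        rwa [rv_rv, rv_append] at this
      have := hgle _ _ h7
      rw [D_rv, Pi.neg_apply] at this
      linarith
  · refine Hi_cons_up fun a b hab => ?_
    have h5 : g ++ [s] = rv b ++ rv a := by
      have := congrArg rv hab
      rwa [rv_rv, rv_append] at this
    have h6 := hh (c ++ rv b) (rv a) (by rw [List.append_assoc c g, h5]; simp)
    have h7 := congrArg (fun w => D w 0) h5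
    simp only [D_append, D_rv, Pi.add_apply, Pi.neg_apply] at h7
    rw [D_append, Pi.add_apply, D_rv, Pi.neg_apply] at h6
    rw [D_append, Pi.add_apply] at hD0
    linarith

/-- loops of length `m` -/
noncomputable def loops (m : ℕ) : Finset Word := (wd m).filter Loop

theorem mem_loops {m : ℕ} {w : Word} : w ∈ loops m ↔ w.length = m ∧ Loop w := by
  unfold loops; rw [mem_filter, mem_wd]

theorem card_loops_le (m : ℕ) : (loops m).card ≤ (m + 1) *
    ∑ j ∈ range (m + 1), (brs (j + 1)).card * (brs (m - j + 1)).card := by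
  choose A B hAB hA hB using exists_last_max (- ev 0)
  have hnn : ∀ w, Loop w → ∀ c e : Word, B w ++ A w = c ++ e → 0 ≤ D c 0 := by
    intro w hw c e hce
    have hD : D (A w) 0 + D (B w) 0 = 0 := by
      have := hw.2.1
      rw [hAB w, D_append] at this
      have := congrFun this 0
      simpa using this
    rcases List.append_eq_append_iff.1 hce with ⟨g, hg1, hg2⟩ | ⟨g, hg1, hg2⟩
    · -- c = B ++ g, A = g ++ e
      have h1 := hA w g e hg2
      have h2 := congrArg (fun w => D w 0) hg2
      simp only [D_append, Pi.add_apply] at h2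
      simp only [AddMonoidHom.neg_apply, ev_apply] at h1
      rw [hg1, D_append, Pi.add_apply]
      linarith
    · by_cases hc : c = []
      · rw [hc]; simp
      · have h1 := hB w c g hg1 hc
        simp only [AddMonoidHom.neg_apply, ev_apply] at h1
        linarith
  have hcut : ∀ w : Word, ∃ p : Word × Word, Loop w → B w ++ A w = p.1 ++ p.2 ∧
      Br (((0, true) : Step) :: p.1) ∧ Br (((0, true) : Step) :: rv p.2) := by
    intro w
    by_cases hw : Loop w
    · have h1 : Loop (B w ++ A w) := by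
        have : Loop (A w ++ B w) := by rw [← hAB w]; exact hw
        exact this.rotate
      obtain ⟨c, d, h2, h3, h4⟩ := h1.cut (hnn w hw)
      exact ⟨(c, d), fun _ => ⟨h2, h3, h4⟩⟩
    · exact ⟨([], []), fun h => absurd h hw⟩
  choose p hp using hcut
  have hT : (loops m).card ≤ (range (m + 1) ×ˢ (range (m + 1)).biUnion
      (fun j => brs (j + 1) ×ˢ brs (m - j + 1))).card := by
    refine card_le_card_of_injOn (fun w => ((A w).length,
      (((0, true) : Step) :: (p w).1, ((0, true) : Step) :: rv (p w).2))) ?_ ?_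
    · intro w hw
      rw [mem_coe, mem_loops] at hw
      obtain ⟨h1, h2⟩ := hw
      obtain ⟨h3, h4, h5⟩ := hp w h2
      have hl1 := congrArg List.length (hAB w)
      have hl2 := congrArg List.length h3
      rw [List.length_append] at hl1
      rw [List.length_append, List.length_append] at hl2
      rw [mem_coe, mem_product, mem_range, mem_biUnion]
      refine ⟨by simp only; omega, (p w).1.length, ?_, ?_⟩
      · rw [mem_range]; omega
      · rw [mem_product, mem_brs, mem_brs]
        refine ⟨⟨by simp, h4⟩, ?_, h5⟩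
        simp only [List.length_cons, length_rv]
        omega
    · intro w hw w' hw' heq
      rw [mem_coe, mem_loops] at hw hw'
      obtain ⟨h3, -, -⟩ := hp w hw.2
      obtain ⟨h3', -, -⟩ := hp w' hw'.2
      simp only [Prod.mk.injEq, List.cons.injEq, true_and] at heq
      obtain ⟨e1, e2, e3⟩ := heq
      have e4 : (p w).2 = (p w').2 := by
        have := congrArg rv e3
        rwa [rv_rv, rv_rv] at this
      have e5 : B w ++ A w = B w' ++ A w' := by rw [h3, h3', e2, e4]
      have hl1 := congrArg List.length (hAB w)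
      have hl2 := congrArg List.length (hAB w')
      rw [List.length_append] at hl1 hl2
      obtain ⟨e6, e7⟩ := List.append_inj e5 (by omega)
      rw [hAB w, hAB w', e6, e7]
  refine hT.trans ?_
  rw [card_product, card_range]
  refine Nat.mul_le_mul_left _ (card_biUnion_le.trans ?_)
  refine sum_le_sum fun j _ => ?_
  rw [card_product]

theorem card_loops_real {μ : ℝ} (hμ : 1 ≤ μ) (hb : ∀ n, ((brs n).card : ℝ) ≤ μ ^ n) (m : ℕ) :
    ((loops m).card : ℝ) * μ⁻¹ ^ m ≤ (m + 1) ^ 2 * μ ^ 2 := by
  have hμ0 : 0 < μ := by linarith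
  have h1 : ((loops m).card : ℝ) ≤ (m + 1) *
      ∑ j ∈ range (m + 1), ((brs (j + 1)).card : ℝ) * ((brs (m - j + 1)).card : ℝ) := by
    exact_mod_cast card_loops_le m
  have h2 : ∑ j ∈ range (m + 1), ((brs (j + 1)).card : ℝ) * ((brs (m - j + 1)).card : ℝ)
      ≤ ∑ j ∈ range (m + 1), μ ^ (m + 2) := by
    refine sum_le_sum fun j hj => ?_
    rw [mem_range] at hj
    calc ((brs (j + 1)).card : ℝ) * ((brs (m - j + 1)).card : ℝ)
        ≤ μ ^ (j + 1) * μ ^ (m - j + 1) :=
          mul_le_mul (hb _) (hb _) (Nat.cast_nonneg _) (by positivity)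
      _ = μ ^ (m + 2) := by rw [← pow_add]; congr 1; omega
  rw [sum_const, card_range, nsmul_eq_mul] at h2
  push_cast at h2
  have h3 : ((loops m).card : ℝ) ≤ (m + 1) * ((m + 1) * μ ^ (m + 2)) :=
    h1.trans (mul_le_mul_of_nonneg_left h2 (by positivity))
  rw [inv_pow, ← div_eq_mul_inv, div_le_iff₀ (by positivity)]
  refine h3.trans (le_of_eq ?_)
  rw [pow_add]; ring

/-- total weight of the words of length at most `L` with at most `h` repetitions -/
noncomputable def TT (x : ℝ) (h L : ℕ) : ℝ := ∑ w ∈ (wle L).filter (fun w => rep w ≤ h), x ^ w.length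

theorem TT_nonneg {x : ℝ} (hx : 0 ≤ x) (h L : ℕ) : 0 ≤ TT x h L :=
  sum_nonneg fun _ _ => pow_nonneg hx _

/-- total weight of the loops -/
noncomputable def QQ (x : ℝ) (L : ℕ) : ℝ := ∑ w ∈ (wle L).filter Loop, x ^ w.length

theorem TT_succ {x : ℝ} (hx : 0 ≤ x) (h L : ℕ) :
    TT x (h + 1) L ≤ TT x 0 L + (L + 1) * (QQ x L * TT x h L) := by
  have hex : ∀ w : Word, ∃ q : Word × (Word × Word), ¬ saw w → w = q.1 ++ (q.2.1 ++ q.2.2) ∧
      Loop q.2.1 ∧ rep (q.1 ++ q.2.2) + 1 ≤ rep w := by
    intro w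
    by_cases hw : saw w
    · exact ⟨([], ([], [])), fun h => absurd hw h⟩
    · obtain ⟨a, u, b, h1, h2, h3, h4, h5⟩ := exists_loop hw
      exact ⟨(a, (u, b)), fun _ => ⟨h1, ⟨h2, h3, h4⟩, h5⟩⟩
  choose q hq using hex
  have hsplit : TT x (h + 1) L
      = ∑ w ∈ ((wle L).filter (fun w => rep w ≤ h + 1)).filter saw, x ^ w.length
      + ∑ w ∈ ((wle L).filter (fun w => rep w ≤ h + 1)).filter (fun w => ¬ saw w), x ^ w.length :=
    (sum_filter_add_sum_filter_not _ _ _).symm
  rw [hsplit]
  refine add_le_add ?_ ?_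
  · unfold TT
    refine sum_le_sum_of_subset_of_nonneg ?_ fun _ _ _ => pow_nonneg hx _
    intro w hw
    rw [mem_filter, mem_filter] at hw
    rw [mem_filter]
    exact ⟨hw.1.1, by rw [hw.2.rep]⟩
  · have hcard : ((L : ℝ) + 1) = ∑ _i ∈ range (L + 1), (1 : ℝ) := by simp
    unfold QQ TT
    rw [hcard, sum_mul_sum, ← sum_product', sum_mul_sum, ← sum_product']
    refine sum_le_of_inj (fun w => ((q w).1.length, ((q w).2.1, (q w).1 ++ (q w).2.2))) ?_ ?_ ?_ ?_
    · intro w hw
      rw [mem_filter, mem_filter, mem_wle] at hw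
      obtain ⟨⟨h1, h2⟩, h3⟩ := hw
      obtain ⟨h4, h5, h6⟩ := hq w h3
      have hl := congrArg List.length h4
      rw [List.length_append, List.length_append] at hl
      simp only [mem_product, mem_range, mem_filter, mem_wle, List.length_append]
      refine ⟨by omega, ⟨by omega, h5⟩, by omega, by omega⟩
    · intro w hw w' hw' heq
      rw [mem_coe, mem_filter] at hw hw'
      obtain ⟨h4, -, -⟩ := hq w hw.2
      obtain ⟨h4', -, -⟩ := hq w' hw'.2
      simp only [Prod.mk.injEq] at heq
      obtain ⟨e1, e2, e3⟩ := heq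
      obtain ⟨e4, e5⟩ := List.append_inj e3 e1
      rw [h4, h4', e4, e5, e2]
    · intro w hw
      rw [mem_filter] at hw
      obtain ⟨h4, -, -⟩ := hq w hw.2
      have hl := congrArg List.length h4
      simp only [List.length_append] at hl ⊢
      rw [one_mul, ← pow_add, hl]
      refine le_of_eq ?_
      congr 1
      omega
    · intro p _
      positivity

theorem QQ_le {μ : ℝ} (hμ : 1 ≤ μ) (hb : ∀ n, ((brs n).card : ℝ) ≤ μ ^ n) (L : ℕ) :
    QQ μ⁻¹ L ≤ (L + 1) ^ 3 * μ ^ 2 := by
  unfold QQ
  rw [sum_filter, sum_wle]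
  have h1 : ∀ m ∈ range (L + 1), (∑ w ∈ wd m, if Loop w then μ⁻¹ ^ w.length else 0)
      ≤ ((L : ℝ) + 1) ^ 2 * μ ^ 2 := by
    intro m hm
    rw [mem_range] at hm
    rw [← sum_filter, show (wd m).filter Loop = loops m from rfl]
    rw [sum_congr rfl (g := fun _ => μ⁻¹ ^ m) fun w hw => by rw [(mem_loops.1 hw).1]]
    rw [sum_const, nsmul_eq_mul]
    refine (card_loops_real hμ hb m).trans ?_
    have : (m : ℝ) ≤ L := by exact_mod_cast Nat.lt_succ_iff.1 hm
    have h0 : (0 : ℝ) ≤ m := Nat.cast_nonneg m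
    gcongr
  refine (sum_le_sum h1).trans (le_of_eq ?_)
  rw [sum_const, card_range, nsmul_eq_mul]
  push_cast; ring

theorem TT_le {μ : ℝ} (hμ : 1 ≤ μ) (hb : ∀ n, ((brs n).card : ℝ) ≤ μ ^ n) (h L : ℕ) :
    TT μ⁻¹ h L ≤ (1 + (L + 1) ^ 4 * μ ^ 2) ^ h * TT μ⁻¹ 0 L := by
  have hx : (0 : ℝ) ≤ μ⁻¹ := by positivity
  have h0 := TT_nonneg hx 0 L
  induction h with
  | zero => simp
  | succ h ih =>
    have h1 := TT_succ hx h L
    have h2 := QQ_le hμ hb L
    have h3 := TT_nonneg hx h L
    set K : ℝ := (L + 1) ^ 4 * μ ^ 2 with hK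
    have hK0 : 0 ≤ K := by positivity
    have h4 : ((L : ℝ) + 1) * (QQ μ⁻¹ L * TT μ⁻¹ h L) ≤ K * TT μ⁻¹ h L := by
      rw [← mul_assoc]
      refine mul_le_mul_of_nonneg_right ?_ h3
      calc ((L : ℝ) + 1) * QQ μ⁻¹ L ≤ (L + 1) * ((L + 1) ^ 3 * μ ^ 2) :=
            mul_le_mul_of_nonneg_left h2 (by positivity)
        _ = K := by rw [hK]; ring
    have h5 : (1 : ℝ) ≤ (1 + K) ^ h := one_le_pow₀ (by linarith)
    calc TT μ⁻¹ (h + 1) L ≤ TT μ⁻¹ 0 L + K * TT μ⁻¹ h L := by linarith
      _ ≤ (1 + K) ^ h * TT μ⁻¹ 0 L + K * ((1 + K) ^ h * TT μ⁻¹ 0 L) := by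
          refine add_le_add ?_ (mul_le_mul_of_nonneg_left ih hK0)
          nlinarith
      _ = (1 + K) ^ (h + 1) * TT μ⁻¹ 0 L := by rw [pow_succ]; ring

theorem TT_zero (x : ℝ) (L : ℕ) : TT x 0 L
    = ∑ n ∈ range (L + 1), ((walks n).card : ℝ) * x ^ n := by
  unfold TT
  rw [sum_filter, sum_wle]
  refine sum_congr rfl fun n _ => ?_
  rw [← sum_filter]
  have : (wd n).filter (fun w => rep w ≤ 0) = walks n := by
    ext w
    rw [mem_filter, mem_walks, mem_wd]
    constructor
    · rintro ⟨h1, h2⟩; exact ⟨h1, saw_of_rep (by omega)⟩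
    · rintro ⟨h1, h2⟩; exact ⟨h1, by rw [h2.rep]⟩
  rw [this, sum_congr rfl (g := fun _ => x ^ n) fun w hw => by rw [(mem_walks.1 hw).1]]
  rw [sum_const, nsmul_eq_mul]

end Pool.Agent.SwP
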