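import Pool.Agent.SwP.Step2
import Pool.Agent.SwP.Loops

/-! The recursive inequality. -/

namespace Pool.Agent.SwP

variable [Pool.Agent.SwP.Dim]
set_option maxHeartbeats 1000000

open Finset Filter
open scoped Classical

/-- the maximal excess -/
noncomputable def FF (μ : ℝ) (N : ℕ) : ℝ :=
  (range (N + 1)).sup' ⟨0, by simp⟩ (fun k => Real.log (((walks k).card : ℝ) * μ⁻¹ ^ k))

theorem le_FF (μ : ℝ) {k N : ℕ} (h : k ≤ N) :
    Real.log (((walks k).card : ℝ) * μ⁻¹ ^ k) ≤ FF μ N :=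
  le_sup' (fun k => Real.log (((walks k).card : ℝ) * μ⁻¹ ^ k)) (mem_range.2 (by omega))

theorem FF_le {μ : ℝ} {N : ℕ} {B : ℝ}
    (h : ∀ k ≤ N, Real.log (((walks k).card : ℝ) * μ⁻¹ ^ k) ≤ B) : FF μ N ≤ B :=
  sup'_le _ _ fun k hk => h k (by rw [mem_range] at hk; omega)

theorem FF_mono (μ : ℝ) {N N' : ℕ} (h : N ≤ N') : FF μ N ≤ FF μ N' :=
  FF_le fun _ hk => le_FF μ (hk.trans h)

theorem term_pos {μ : ℝ} (hμ : 1 ≤ μ) (k : ℕ) : 0 < ((walks k).card : ℝ) * μ⁻¹ ^ k := by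
  have h1 : (0 : ℝ) < (walks k).card := by exact_mod_cast walks_card_pos k
  have h2 : 0 < μ := by linarith
  positivity

theorem term_le_exp {μ : ℝ} (hμ : 1 ≤ μ) {k N : ℕ} (h : k ≤ N) :
    ((walks k).card : ℝ) * μ⁻¹ ^ k ≤ Real.exp (FF μ N) := by
  rw [← Real.exp_log (term_pos hμ k)]
  exact Real.exp_le_exp.2 (le_FF μ h)

theorem FF_nonneg {μ : ℝ} (N : ℕ) : 0 ≤ FF μ N := by
  refine le_trans ?_ (le_FF μ (Nat.zero_le N))
  have : (walks 0).card = 1 := by
    rw [card_eq_one]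
    refine ⟨[], ?_⟩
    ext w
    rw [mem_walks, mem_singleton, List.length_eq_zero_iff]
    constructor
    · exact fun h => h.1
    · rintro rfl; exact ⟨rfl, saw_nil⟩
  rw [this]
  simp

theorem TT_zero_le {μ : ℝ} (hμ : 1 ≤ μ) (L : ℕ) :
    TT μ⁻¹ 0 L ≤ (L + 1) * Real.exp (FF μ L) := by
  rw [TT_zero]
  calc ∑ n ∈ range (L + 1), ((walks n).card : ℝ) * μ⁻¹ ^ n
      ≤ ∑ _n ∈ range (L + 1), Real.exp (FF μ L) :=
        sum_le_sum fun n hn => term_le_exp hμ (by rw [mem_range] at hn; omega)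
    _ = _ := by rw [sum_const, card_range, nsmul_eq_mul]; push_cast; ring

theorem log_prod {c A B F : ℝ} {h : ℕ} (hc : 0 < c) (hA : 0 < A) (hB : 0 < B) :
    Real.log (c * (A ^ h * (B * Real.exp F)))
      = Real.log c + (h * Real.log A + (Real.log B + F)) := by
  rw [Real.log_mul hc.ne' (by positivity), Real.log_mul (by positivity) (by positivity),
    Real.log_pow, Real.log_mul hB.ne' (by positivity), Real.log_exp]

end Pool.Agent.SwP
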