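import Pool.Agent.SwP.Concl

/-! The complementary case, an a priori bound, and the iteration. -/

namespace Pool.Agent.SwP

variable [Pool.Agent.SwP.Dim]
set_option maxHeartbeats 400000

open Finset Filter
open scoped Classical

theorem HW_log {μ : ℝ} (hμ : 1 ≤ μ) {δ : ℝ} (hδ : 0 < δ) {k N : ℕ} (hk : k ≤ N) {Z : ℝ}
    (hZ : Zt (μ⁻¹ * Real.exp (-δ)) (N + 1) ≤ Z) :
    Real.log (((walks k).card : ℝ) * μ⁻¹ ^ k) ≤ δ * N + (Real.log μ + δ) + 2 * Z := by
  have hμ0 : 0 < μ := by linarith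
  set y := μ⁻¹ * Real.exp (-δ) with hy
  have hy0 : 0 < y := by positivity
  have h1 := HW_main hy0 k
  have h2 : Zt y (k + 1) ≤ Z := (Zt_mono hy0.le (by omega)).trans hZ
  have h3 : ((walks k).card : ℝ) * μ⁻¹ ^ k
      = ((walks k).card : ℝ) * y ^ k * Real.exp (δ * k) := by
    rw [hy, mul_pow, ← Real.exp_nat_mul]
    have : Real.exp (k * -δ) * Real.exp (δ * k) = 1 := by
      rw [← Real.exp_add]
      have : (k : ℝ) * -δ + δ * k = 0 := by ring
      rw [this, Real.exp_zero]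
    calc ((walks k).card : ℝ) * μ⁻¹ ^ k
        = ((walks k).card : ℝ) * μ⁻¹ ^ k * (Real.exp (k * -δ) * Real.exp (δ * k)) := by
          rw [this, mul_one]
      _ = _ := by ring
  have h4 : ((walks k).card : ℝ) * μ⁻¹ ^ k
      ≤ Real.exp (δ * N + (Real.log μ + δ) + 2 * Z) := by
    rw [h3]
    have e1 : y⁻¹ = Real.exp (Real.log μ + δ) := by
      rw [hy, mul_inv, inv_inv, ← Real.exp_neg, neg_neg, Real.exp_add, Real.exp_log hμ0]
    have hk' : (k : ℝ) ≤ N := by exact_mod_cast hk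
    calc ((walks k).card : ℝ) * y ^ k * Real.exp (δ * k)
        ≤ (y⁻¹ * Real.exp (2 * Zt y (k + 1))) * Real.exp (δ * k) :=
          mul_le_mul_of_nonneg_right h1 (Real.exp_pos _).le
      _ = Real.exp (δ * k + (Real.log μ + δ) + 2 * Zt y (k + 1)) := by
          rw [e1, ← Real.exp_add, ← Real.exp_add]
          congr 1
          ring
      _ ≤ _ := by
          apply Real.exp_le_exp.2
          have : δ * (k : ℝ) ≤ δ * N := mul_le_mul_of_nonneg_left hk' hδ.le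
          linarith
  have h5 := Real.log_le_log (term_pos hμ k) h4
  rwa [Real.log_exp] at h5

theorem term_shift {μ : ℝ} (hμ : 1 ≤ μ) (hb : ∀ n, ((brs n).card : ℝ) ≤ μ ^ n) {δ : ℝ} (j : ℕ) :
    ((brs j).card : ℝ) * (μ⁻¹ * Real.exp (-δ)) ^ j ≤ Real.exp (-δ) ^ j := by
  have hμ0 : 0 < μ := by linarith
  have h1 : ((brs j).card : ℝ) * μ⁻¹ ^ j ≤ 1 := by
    rw [inv_pow, ← div_eq_mul_inv, div_le_one (by positivity)]
    exact hb j
  rw [mul_pow, ← mul_assoc]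
  calc ((brs j).card : ℝ) * μ⁻¹ ^ j * Real.exp (-δ) ^ j ≤ 1 * Real.exp (-δ) ^ j :=
        mul_le_mul_of_nonneg_right h1 (by positivity)
    _ = _ := one_mul _

theorem V_shift {μ : ℝ} (hμ : 1 ≤ μ) (hb : ∀ n, ((brs n).card : ℝ) ≤ μ ^ n) {δ : ℝ} (hδ : 0 < δ)
    (L n₀ : ℕ) : V (μ⁻¹ * Real.exp (-δ)) L ≤ V μ⁻¹ n₀ + (L + 1) * Real.exp (-(δ * n₀)) := by
  have hμ0 : 0 < μ := by linarith
  rw [V_sum, V_sum]
  have h1 : ∀ j ∈ range (L + 1), ((brs j).card : ℝ) * (μ⁻¹ * Real.exp (-δ)) ^ j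
      ≤ (if j ∈ range (n₀ + 1) then ((brs j).card : ℝ) * μ⁻¹ ^ j else 0)
        + Real.exp (-(δ * n₀)) := by
    intro j _
    split_ifs with h
    · have h2 : ((brs j).card : ℝ) * (μ⁻¹ * Real.exp (-δ)) ^ j ≤ ((brs j).card : ℝ) * μ⁻¹ ^ j := by
        refine mul_le_mul_of_nonneg_left (pow_le_pow_left₀ (by positivity) ?_ j) (Nat.cast_nonneg _)
        calc μ⁻¹ * Real.exp (-δ) ≤ μ⁻¹ * 1 := by
              refine mul_le_mul_of_nonneg_left ?_ (by positivity)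
              rw [← Real.exp_zero]
              exact Real.exp_le_exp.2 (by linarith)
          _ = μ⁻¹ := mul_one _
      have := Real.exp_pos (-(δ * n₀))
      linarith
    · rw [zero_add]
      refine (term_shift hμ hb j).trans ?_
      rw [← Real.exp_nat_mul]
      apply Real.exp_le_exp.2
      rw [mem_range] at h
      have h3 : (n₀ : ℝ) ≤ j := by
        have : n₀ ≤ j := by omega
        exact_mod_cast this
      have : δ * (n₀ : ℝ) ≤ δ * j := mul_le_mul_of_nonneg_left h3 hδ.le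
      linarith
  refine (sum_le_sum h1).trans ?_
  rw [sum_add_distrib, sum_const, card_range, nsmul_eq_mul]
  push_cast
  refine add_le_add ?_ le_rfl
  rw [← sum_filter]
  refine sum_le_sum_of_subset_of_nonneg ?_ fun j _ _ => by positivity
  intro j hj
  exact (mem_filter.1 hj).2

/-- the complementary case -/
theorem good_case {μ : ℝ} (hμ : 1 ≤ μ) (hb : ∀ n, ((brs n).card : ℝ) ≤ μ ^ n)
    {d g : ℕ} (hgd : g ≤ d) : ∃ C : ℝ, 0 ≤ C ∧ ∀ᶠ m : ℕ in atTop, ¬ Bad μ d g m →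
      FF μ (m ^ d) ≤ C * m ^ (g + 1) := by
  have hμ0 : 0 < μ := by linarith
  have hlμ : 0 ≤ Real.log μ := Real.log_nonneg hμ
  refine ⟨6 + Real.log μ, by positivity, ?_⟩
  have hlim : ∀ᶠ m : ℕ in atTop, ((m : ℝ) ^ d + 2) * Real.exp (-(m : ℝ)) ≤ 1 := by
    have h1 : Tendsto (fun x : ℝ => x ^ d * Real.exp (-x)) atTop (nhds 0) :=
      Real.tendsto_pow_mul_exp_neg_atTop_nhds_zero d
    have h2 : Tendsto (fun x : ℝ => x ^ 0 * Real.exp (-x)) atTop (nhds 0) :=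
      Real.tendsto_pow_mul_exp_neg_atTop_nhds_zero 0
    have h3 := (h1.comp (tendsto_natCast_atTop_atTop (R := ℝ))).eventually
      (eventually_le_nhds (show (0 : ℝ) < 1 / 2 by norm_num))
    have h4 := (h2.comp (tendsto_natCast_atTop_atTop (R := ℝ))).eventually
      (eventually_le_nhds (show (0 : ℝ) < 1 / 4 by norm_num))
    filter_upwards [h3, h4] with m h5 h6
    simp only [Function.comp, pow_zero, one_mul] at h5 h6
    linarith
  filter_upwards [hlim, eventually_ge_atTop 1] with m hm hm1 hbad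
  unfold Bad at hbad
  push Not at hbad
  have hm1' : (1 : ℝ) ≤ m := by exact_mod_cast hm1
  have hm0 : (0 : ℝ) < m := by linarith
  set δ : ℝ := (m : ℝ) ^ g / (m : ℝ) ^ d with hδ
  have hδ0 : 0 < δ := by positivity
  have hδ1 : δ ≤ 1 := by
    rw [hδ, div_le_one (by positivity)]
    exact pow_le_pow_right₀ hm1' hgd
  have hδn : δ * ((m ^ (d - g + 1) : ℕ) : ℝ) = m := by
    rw [hδ]
    push_cast
    rw [div_mul_eq_mul_div, div_eq_iff (by positivity), ← pow_add, ← pow_succ']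
    congr 1
    omega
  have hδN : δ * ((m ^ d : ℕ) : ℝ) = (m : ℝ) ^ g := by
    rw [hδ]
    push_cast
    field_simp
  have h1 := V_shift hμ hb hδ0 (m ^ d + 1) (m ^ (d - g + 1))
  rw [hδn, V_eq, V_eq] at h1
  have h2 : Zt (μ⁻¹ * Real.exp (-δ)) (m ^ d + 1) ≤ (m : ℝ) ^ g + 1 := by
    push_cast at h1
    have h3 : ((m : ℝ) ^ d + 1 + 1) * Real.exp (-(m : ℝ)) ≤ 1 := by
      have : (m : ℝ) ^ d + 1 + 1 = (m : ℝ) ^ d + 2 := by ring
      rw [this]; exact hm
    linarith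
  refine FF_le fun k hk => ?_
  have h3 := HW_log hμ hδ0 hk h2
  rw [hδN] at h3
  have h4 : (1 : ℝ) ≤ (m : ℝ) ^ (g + 1) := one_le_pow₀ hm1'
  have h5 : (m : ℝ) ^ g ≤ (m : ℝ) ^ (g + 1) := pow_le_pow_right₀ hm1' (Nat.le_succ g)
  have h6 : Real.log μ ≤ Real.log μ * (m : ℝ) ^ (g + 1) := le_mul_of_one_le_right hlμ h4
  rw [add_mul]
  linarith

/-- an a priori bound -/
theorem apriori {μ : ℝ} (hμ : 1 ≤ μ) (hb : ∀ n, ((brs n).card : ℝ) ≤ μ ^ n) {N : ℕ}
    (hN : 1 ≤ N) : FF μ N ≤ (4 + Real.log μ) * Real.sqrt N := by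
  have hμ0 : 0 < μ := by linarith
  have hlμ : 0 ≤ Real.log μ := Real.log_nonneg hμ
  have hN' : (1 : ℝ) ≤ N := by exact_mod_cast hN
  have hs1 : 1 ≤ Real.sqrt N := by rw [← Real.sqrt_one]; exact Real.sqrt_le_sqrt hN'
  have hs0 : 0 < Real.sqrt N := by linarith
  set δ : ℝ := (Real.sqrt N)⁻¹ with hδ
  have hδ0 : 0 < δ := by positivity
  have hδ1 : δ ≤ 1 := inv_le_one_of_one_le₀ hs1
  have hZ : Zt (μ⁻¹ * Real.exp (-δ)) (N + 1) ≤ Real.sqrt N := by
    have h1 : V (μ⁻¹ * Real.exp (-δ)) (N + 1) ≤ ∑ j ∈ range (N + 1 + 1), Real.exp (-δ) ^ j := by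
      rw [V_sum]
      exact sum_le_sum fun j _ => term_shift hμ hb j
    have h2 := mul_neg_geom_sum (Real.exp (-δ)) (N + 1 + 1)
    have h3 : Real.exp (-δ) < 1 := by
      rw [← Real.exp_zero]
      exact Real.exp_lt_exp.2 (by linarith)
    have h4 : (1 - Real.exp (-δ)) * ∑ j ∈ range (N + 1 + 1), Real.exp (-δ) ^ j ≤ 1 := by
      rw [h2]
      have : 0 < Real.exp (-δ) ^ (N + 1 + 1) := by positivity
      linarith
    have h5 : δ * Real.exp (-δ) ≤ 1 - Real.exp (-δ) := by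
      have h6 := Real.add_one_le_exp δ
      have h7 : Real.exp (-δ) * Real.exp δ = 1 := by
        rw [← Real.exp_add]; simp
      have h8 := Real.exp_pos (-δ)
      nlinarith
    have h6 : Zt (μ⁻¹ * Real.exp (-δ)) (N + 1)
        ≤ ∑ j ∈ range (N + 1 + 1), Real.exp (-δ) ^ j - 1 := by
      rw [V_eq] at h1
      linarith
    set S := ∑ j ∈ range (N + 1 + 1), Real.exp (-δ) ^ j with hS
    have h7 : (1 - Real.exp (-δ)) * (S - 1) ≤ Real.exp (-δ) := by linarith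
    have h8 : 0 < Real.exp (-δ) := Real.exp_pos _
    have h9 : δ * (S - 1) ≤ 1 := by
      by_cases hS1 : 0 ≤ S - 1
      · have h10 : δ * Real.exp (-δ) * (S - 1) ≤ Real.exp (-δ) :=
          (mul_le_mul_of_nonneg_right h5 hS1).trans h7
        have h11 : Real.exp (-δ) * (δ * (S - 1)) ≤ Real.exp (-δ) * 1 := by linarith
        exact le_of_mul_le_mul_left h11 h8
      · push Not at hS1
        nlinarith
    have h10 : S - 1 ≤ Real.sqrt N := by
      rw [hδ, inv_mul_le_iff₀ hs0] at h9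
      linarith
    linarith
  refine FF_le fun k hk => ?_
  have h3 := HW_log hμ hδ0 hk hZ
  have h4 : δ * (N : ℝ) = Real.sqrt N := by
    rw [hδ, inv_mul_eq_div, div_eq_iff hs0.ne']
    exact (Real.mul_self_sqrt (by linarith)).symm
  rw [h4] at h3
  have h6 : Real.log μ ≤ Real.log μ * Real.sqrt N := le_mul_of_one_le_right hlμ hs1
  rw [add_mul]
  linarith

theorem iterate {F : ℕ → ℝ} {C C₀ θ : ℝ} (hC : 0 ≤ C) (hC₀ : 0 ≤ C₀) (hθ0 : 0 ≤ θ)
    (hθ : θ ≤ 1 / 2)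
    (h1 : ∀ N : ℕ, 1 ≤ N → F N ≤ 1 / 2 * F (7 * N / 2) + C * (N : ℝ) ^ θ)
    (h2 : ∀ N : ℕ, 1 ≤ N → F N ≤ C₀ * Real.sqrt N) :
    ∃ A : ℝ, ∀ N : ℕ, 1 ≤ N → F N ≤ A * (N : ℝ) ^ θ := by
  set r := Real.sqrt (7 / 2) / 2 with hr
  have hr0 : 0 ≤ r := by positivity
  have hr1 : r < 1 := by
    rw [hr, div_lt_one (by norm_num)]
    rw [Real.sqrt_lt' (by norm_num)]
    norm_num
  set A := C / (1 - r) with hA
  have hA0 : 0 ≤ A := div_nonneg hC (by linarith)
  have hAr : A * r + C = A := by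
    rw [hA]
    have : 1 - r ≠ 0 := by linarith
    field_simp
    ring
  have hk : ∀ k : ℕ, ∀ N : ℕ, 1 ≤ N → F N ≤ A * (N : ℝ) ^ θ + C₀ * r ^ k * Real.sqrt N := by
    intro k
    induction k with
    | zero =>
      intro N hN
      have := h2 N hN
      have h3 : 0 ≤ A * (N : ℝ) ^ θ := mul_nonneg hA0 (Real.rpow_nonneg (Nat.cast_nonneg _) _)
      rw [pow_zero, mul_one]
      linarith
    | succ k ih =>
      intro N hN
      have h3 := h1 N hN
      have hM : 1 ≤ 7 * N / 2 := by omega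
      have h4 := ih (7 * N / 2) hM
      have hMr : ((7 * N / 2 : ℕ) : ℝ) ≤ 7 / 2 * N := by
        have : ((7 * N / 2 : ℕ) : ℝ) ≤ ((7 * N : ℕ) : ℝ) / (2 : ℕ) := Nat.cast_div_le
        push_cast at this
        linarith
      have hN0 : (0 : ℝ) ≤ N := Nat.cast_nonneg _
      have h5 : ((7 * N / 2 : ℕ) : ℝ) ^ θ ≤ 2 * r * (N : ℝ) ^ θ := by
        calc ((7 * N / 2 : ℕ) : ℝ) ^ θ ≤ (7 / 2 * (N : ℝ)) ^ θ :=
              Real.rpow_le_rpow (Nat.cast_nonneg _) hMr hθ0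
          _ = (7 / 2 : ℝ) ^ θ * (N : ℝ) ^ θ := Real.mul_rpow (by norm_num) hN0
          _ ≤ (7 / 2 : ℝ) ^ (1 / 2 : ℝ) * (N : ℝ) ^ θ := by
              refine mul_le_mul_of_nonneg_right ?_ (Real.rpow_nonneg hN0 _)
              exact Real.rpow_le_rpow_of_exponent_le (by norm_num) hθ
          _ = _ := by
              rw [← Real.sqrt_eq_rpow, hr]
              ring
      have h6 : Real.sqrt ((7 * N / 2 : ℕ) : ℝ) ≤ 2 * r * Real.sqrt N := by
        calc Real.sqrt ((7 * N / 2 : ℕ) : ℝ) ≤ Real.sqrt (7 / 2 * N) := Real.sqrt_le_sqrt hMr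
          _ = Real.sqrt (7 / 2) * Real.sqrt N := Real.sqrt_mul (by norm_num) _
          _ = _ := by rw [hr]; ring
      have h7 : A * ((7 * N / 2 : ℕ) : ℝ) ^ θ ≤ A * (2 * r * (N : ℝ) ^ θ) :=
        mul_le_mul_of_nonneg_left h5 hA0
      have h8 : C₀ * r ^ k * Real.sqrt ((7 * N / 2 : ℕ) : ℝ)
          ≤ C₀ * r ^ k * (2 * r * Real.sqrt N) :=
        mul_le_mul_of_nonneg_left h6 (by positivity)
      have e1 : A * (N : ℝ) ^ θ = A * r * (N : ℝ) ^ θ + C * (N : ℝ) ^ θ := by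
        rw [← add_mul, hAr]
      rw [e1, pow_succ]
      have e2 : C₀ * (r ^ k * r) * Real.sqrt N = 1 / 2 * (C₀ * r ^ k * (2 * r * Real.sqrt N)) := by
        ring
      have e3 : A * r * (N : ℝ) ^ θ = 1 / 2 * (A * (2 * r * (N : ℝ) ^ θ)) := by ring
      rw [e2, e3]
      linarith
  refine ⟨A, fun N hN => ?_⟩
  have hlim : Tendsto (fun k : ℕ => A * (N : ℝ) ^ θ + C₀ * r ^ k * Real.sqrt N) atTop
      (nhds (A * (N : ℝ) ^ θ + C₀ * 0 * Real.sqrt N)) :=
    tendsto_const_nhds.add (((tendsto_pow_atTop_nhds_zero_of_lt_one hr0 hr1).const_mul C₀).mul_const _)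
  have := ge_of_tendsto' hlim (fun k => hk k N hN)
  simpa using this

end Pool.Agent.SwP
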