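import Pool.Agent.SwP.Loops

/-! Finitely supported probability laws on words. -/

namespace Pool.Agent.SwP

variable [Pool.Agent.SwP.Dim]

open Finset
open scoped Classical

/-- a finitely supported probability law on words -/
structure Law where
  ι : Type
  ft : Fintype ι
  p : ι → ℝ
  f : ι → Word
  nn : ∀ i, 0 ≤ p i
  one : ∑ i, p i = 1

attribute [instance] Law.ft

/-- expectation -/
noncomputable def Law.E (P : Law) (φ : Word → ℝ) : ℝ := ∑ i, P.p i * φ (P.f i)

theorem Law.E_mono (P : Law) {φ ψ : Word → ℝ} (h : ∀ i, φ (P.f i) ≤ ψ (P.f i)) :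
    P.E φ ≤ P.E ψ :=
  sum_le_sum fun i _ => mul_le_mul_of_nonneg_left (h i) (P.nn i)

theorem Law.E_const (P : Law) (c : ℝ) : P.E (fun _ => c) = c := by
  unfold Law.E
  rw [← sum_mul, P.one, one_mul]

theorem Law.E_le (P : Law) {φ : Word → ℝ} {c : ℝ} (h : ∀ i, φ (P.f i) ≤ c) : P.E φ ≤ c := by
  rw [← P.E_const c]
  exact P.E_mono h

theorem Law.le_E (P : Law) {φ : Word → ℝ} {c : ℝ} (h : ∀ i, c ≤ φ (P.f i)) : c ≤ P.E φ := by
  rw [← P.E_const c]
  exact P.E_mono h

theorem Law.E_add (P : Law) (φ ψ : Word → ℝ) : P.E (fun w => φ w + ψ w) = P.E φ + P.E ψ := by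
  unfold Law.E
  rw [← sum_add_distrib]
  exact sum_congr rfl fun i _ => by ring

theorem Law.E_smul (P : Law) (c : ℝ) (φ : Word → ℝ) : P.E (fun w => c * φ w) = c * P.E φ := by
  unfold Law.E
  rw [mul_sum]
  exact sum_congr rfl fun i _ => by ring

theorem Law.E_sum (P : Law) {α : Type*} (s : Finset α) (φ : α → Word → ℝ) :
    P.E (fun w => ∑ a ∈ s, φ a w) = ∑ a ∈ s, P.E (φ a) := by
  unfold Law.E
  rw [sum_comm]
  exact sum_congr rfl fun i _ => by rw [mul_sum]

/-- concatenation of independent words -/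
noncomputable def Law.conv (P Q : Law) : Law where
  ι := P.ι × Q.ι
  ft := inferInstance
  p := fun x => P.p x.1 * Q.p x.2
  f := fun x => P.f x.1 ++ Q.f x.2
  nn := fun x => mul_nonneg (P.nn _) (Q.nn _)
  one := by
    rw [Fintype.sum_prod_type]
    simp only [← mul_sum, Q.one, mul_one, P.one]

theorem Law.E_conv (P Q : Law) (φ : Word → ℝ) :
    (P.conv Q).E φ = P.E (fun u => Q.E (fun v => φ (u ++ v))) := by
  unfold Law.E Law.conv
  simp only
  rw [Fintype.sum_prod_type]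
  simp only [mul_sum]
  exact sum_congr rfl fun i _ => sum_congr rfl fun j _ => by ring

/-- a deterministic word -/
noncomputable def Law.dirac (w : Word) : Law where
  ι := Unit
  ft := inferInstance
  p := fun _ => 1
  f := fun _ => w
  nn := fun _ => zero_le_one
  one := by simp

theorem Law.E_dirac (w : Word) (φ : Word → ℝ) : (Law.dirac w).E φ = φ w := by
  simp [Law.E, Law.dirac]

/-- image under a map of steps -/
noncomputable def Law.map (P : Law) (g : Step → Step) : Law where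
  ι := P.ι
  ft := P.ft
  p := P.p
  f := fun i => (P.f i).map g
  nn := P.nn
  one := P.one

theorem Law.E_map (P : Law) (g : Step → Step) (φ : Word → ℝ) :
    (P.map g).E φ = P.E (fun w => φ (w.map g)) := rfl

/-- `P` is dominated by `M` times the reference weight, on words of length at most `L` -/
def Dom (x : ℝ) (L : ℕ) (P : Law) (M : ℝ) : Prop :=
  ∀ φ : Word → ℝ, (∀ w, 0 ≤ φ w) → (∀ w, L < w.length → φ w = 0) →
    P.E φ ≤ M * ∑ w ∈ wle L, x ^ w.length * φ w

theorem sum_pairs_le {x : ℝ} (hx : 0 ≤ x) (L : ℕ) (φ : Word → ℝ) (h0 : ∀ w, 0 ≤ φ w)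
    (hL : ∀ w, L < w.length → φ w = 0) :
    ∑ u ∈ wle L, x ^ u.length * ∑ v ∈ wle L, x ^ v.length * φ (u ++ v)
      ≤ (L + 1) * ∑ w ∈ wle L, x ^ w.length * φ w := by
  have h1 : ∑ u ∈ wle L, x ^ u.length * ∑ v ∈ wle L, x ^ v.length * φ (u ++ v)
      = ∑ q ∈ (wle L ×ˢ wle L).filter (fun q : Word × Word => (q.1 ++ q.2).length ≤ L),
        x ^ (q.1 ++ q.2).length * φ (q.1 ++ q.2) := by
    rw [sum_filter, sum_product]
    refine sum_congr rfl fun u _ => ?_
    rw [mul_sum]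
    refine sum_congr rfl fun v _ => ?_
    split_ifs with h
    · rw [List.length_append, pow_add]; ring
    · rw [hL (u ++ v) (by push Not at h; exact h)]; ring
  have h2 : ((L : ℝ) + 1) = ∑ _i ∈ range (L + 1), (1 : ℝ) := by simp
  rw [h1, h2, sum_mul_sum, ← sum_product']
  refine sum_le_of_inj (fun q : Word × Word => (q.1.length, q.1 ++ q.2)) ?_ ?_ ?_ ?_
  · rintro ⟨u, v⟩ h
    simp only [mem_filter, mem_product, mem_wle, mem_range, List.length_append] at h ⊢
    exact ⟨by omega, h.2⟩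
  · rintro ⟨u, v⟩ _ ⟨u', v'⟩ _ heq
    simp only [Prod.mk.injEq] at heq
    obtain ⟨h3, h4⟩ := List.append_inj heq.2 heq.1
    rw [h3, h4]
  · rintro ⟨u, v⟩ _
    simp
  · rintro ⟨i, w⟩ _
    have := h0 w
    positivity

theorem Dom.conv {x : ℝ} (hx : 0 ≤ x) {L : ℕ} {P Q : Law} {M M' : ℝ} (hM : 0 ≤ M) (hM' : 0 ≤ M')
    (hP : Dom x L P M) (hQ : Dom x L Q M') : Dom x L (P.conv Q) (M * M' * (L + 1)) := by
  intro φ h0 hL
  rw [Law.E_conv]
  have h1 : P.E (fun u => Q.E (fun v => φ (u ++ v)))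
      ≤ P.E (fun u => M' * ∑ v ∈ wle L, x ^ v.length * φ (u ++ v)) := by
    refine P.E_mono fun i => ?_
    exact hQ (fun v => φ (P.f i ++ v)) (fun v => h0 _) (fun v hv => hL _ (by
      rw [List.length_append]; omega))
  have h2 := hP (fun u => M' * ∑ v ∈ wle L, x ^ v.length * φ (u ++ v))
    (fun u => mul_nonneg hM' (sum_nonneg fun v _ => mul_nonneg (pow_nonneg hx _) (h0 _)))
    (fun u hu => by
      rw [sum_eq_zero fun v _ => ?_, mul_zero]
      rw [hL (u ++ v) (by rw [List.length_append]; omega), mul_zero])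
  refine h1.trans (h2.trans ?_)
  have h3 : ∑ w ∈ wle L, x ^ w.length * (M' * ∑ v ∈ wle L, x ^ v.length * φ (w ++ v))
      = M' * ∑ w ∈ wle L, x ^ w.length * ∑ v ∈ wle L, x ^ v.length * φ (w ++ v) := by
    rw [mul_sum]
    exact sum_congr rfl fun w _ => by ring
  rw [h3, ← mul_assoc, mul_assoc (M * M')]
  exact mul_le_mul_of_nonneg_left (sum_pairs_le hx L φ h0 hL) (mul_nonneg hM hM')

theorem Dom.mono {x : ℝ} (hx : 0 ≤ x) {L : ℕ} {P : Law} {M M' : ℝ} (hP : Dom x L P M)
    (h : M ≤ M') : Dom x L P M' := by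
  intro φ h0 hL
  exact (hP φ h0 hL).trans (mul_le_mul_of_nonneg_right h
    (sum_nonneg fun w _ => mul_nonneg (pow_nonneg hx _) (h0 _)))

theorem Dom.dirac {x : ℝ} (hx : 0 < x) {L : ℕ} (w : Word) :
    Dom x L (Law.dirac w) (x⁻¹ ^ w.length) := by
  intro φ h0 hL
  rw [Law.E_dirac]
  have hsum : 0 ≤ ∑ w ∈ wle L, x ^ w.length * φ w :=
    sum_nonneg fun w _ => mul_nonneg (pow_nonneg hx.le _) (h0 _)
  by_cases h : w.length ≤ L
  · have h1 : x ^ w.length * φ w ≤ ∑ w ∈ wle L, x ^ w.length * φ w :=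
      single_le_sum (f := fun w => x ^ w.length * φ w)
        (fun w _ => mul_nonneg (pow_nonneg hx.le _) (h0 _)) (mem_wle.2 h)
    calc φ w = x⁻¹ ^ w.length * (x ^ w.length * φ w) := by
          rw [← mul_assoc, ← mul_pow, inv_mul_cancel₀ hx.ne', one_pow, one_mul]
      _ ≤ _ := mul_le_mul_of_nonneg_left h1 (by positivity)
  · rw [hL w (by omega)]
    positivity

theorem Dom.map {x : ℝ} (hx : 0 ≤ x) {L : ℕ} {P : Law} {M : ℝ} (hM : 0 ≤ M)
    (hP : Dom x L P M) {g : Step → Step} (hg : Function.Injective g) : Dom x L (P.map g) M := by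
  intro φ h0 hL
  rw [Law.E_map]
  refine (hP (fun w => φ (w.map g)) (fun w => h0 _) (fun w hw => hL _ (by simpa using hw))).trans
    (mul_le_mul_of_nonneg_left ?_ hM)
  refine sum_le_of_inj (fun w : Word => w.map g) ?_ ?_ ?_ ?_
  · intro w hw
    rw [mem_wle] at hw ⊢
    simpa using hw
  · exact (List.map_injective_iff.2 hg).injOn
  · intro w _
    simp
  · intro w _
    exact mul_nonneg (pow_nonneg hx _) (h0 _)

end Pool.Agent.SwP
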