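import Pool.Agent.SwP.Good

/-! The main bound for words. -/

namespace Pool.Agent.SwP

variable [Pool.Agent.SwP.Dim]
set_option maxHeartbeats 400000

open Finset Filter
open scoped Classical

theorem exists_root {d : ℕ} (hd : 1 ≤ d) {N : ℕ} (hN : 1 ≤ N) :
    ∃ m : ℕ, 1 ≤ m ∧ N ≤ m ^ d ∧ (m - 1) ^ d < N := by
  have hex : ∃ m : ℕ, N ≤ m ^ d := ⟨N, Nat.le_self_pow (by omega) N⟩
  refine ⟨Nat.find hex, ?_, Nat.find_spec hex, ?_⟩
  · rw [Nat.one_le_iff_ne_zero]
    intro h0
    have h1 := Nat.find_spec hex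
    rw [h0, zero_pow (by omega)] at h1
    omega
  · have h0 : Nat.find hex ≠ 0 := by
      intro h0
      have h1 := Nat.find_spec hex
      rw [h0, zero_pow (by omega)] at h1
      omega
    have h1 := Nat.find_min hex (m := Nat.find hex - 1) (by omega)
    omega

end Pool.Agent.SwP
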