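import Pool.Agent.SwP.Walk

/-! Sets of visited points and numbers of repetitions. -/

namespace Pool.Agent.SwP

variable [Pool.Agent.SwP.Dim]

open Finset
open scoped Classical

/-- the visited points -/
noncomputable def pts (w : Word) : Finset Pt := (range (w.length + 1)).image fun i => D (w.take i)

/-- translation of a finite set of points -/
noncomputable def tr (c : Pt) (S : Finset Pt) : Finset Pt := S.image fun p => c + p

theorem mem_pts {w : Word} {p : Pt} : p ∈ pts w ↔ ∃ a b : Word, w = a ++ b ∧ D a = p := by
  constructor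
  · intro h
    obtain ⟨i, _, hi⟩ := mem_image.1 h
    exact ⟨w.take i, w.drop i, (List.take_append_drop i w).symm, hi⟩
  · rintro ⟨a, b, rfl, rfl⟩
    refine mem_image.2 ⟨a.length, ?_, by simp⟩
    rw [mem_range, List.length_append]; omega

theorem mem_tr {c p : Pt} {S : Finset Pt} : p ∈ tr c S ↔ p - c ∈ S := by
  constructor
  · intro h
    obtain ⟨q, hq, rfl⟩ := mem_image.1 h
    simpa using hq
  · intro h
    exact mem_image.2 ⟨p - c, h, by simp⟩

@[simp] theorem card_tr (c : Pt) (S : Finset Pt) : (tr c S).card = S.card :=
  card_image_of_injective _ (fun _ _ h => add_left_cancel h)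

theorem zero_mem_pts (w : Word) : (0 : Pt) ∈ pts w := mem_pts.2 ⟨[], w, rfl, rfl⟩

theorem D_mem_pts (w : Word) : D w ∈ pts w := mem_pts.2 ⟨w, [], by simp, rfl⟩

theorem card_pts_le (w : Word) : (pts w).card ≤ w.length + 1 := by
  refine card_image_le.trans ?_
  simp

theorem pts_append (u v : Word) : pts (u ++ v) = pts u ∪ tr (D u) (pts v) := by
  ext p
  rw [mem_union, mem_tr]
  constructor
  · intro h
    obtain ⟨a, b, hab, rfl⟩ := mem_pts.1 h
    rcases List.append_eq_append_iff.1 hab with ⟨e, he1, he2⟩ | ⟨e, he1, he2⟩
    · right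
      rw [he1, D_append]
      exact mem_pts.2 ⟨e, b, he2, by simp⟩
    · left
      exact mem_pts.2 ⟨a, e, he1, rfl⟩
  · rintro (h | h)
    · obtain ⟨a, b, rfl, rfl⟩ := mem_pts.1 h
      exact mem_pts.2 ⟨a, b ++ v, by simp, rfl⟩
    · obtain ⟨a, b, rfl, hab⟩ := mem_pts.1 h
      refine mem_pts.2 ⟨u ++ a, b, by simp, ?_⟩
      rw [D_append, hab]; simp

/-- the number of repetitions -/
noncomputable def rep (w : Word) : ℕ := w.length + 1 - (pts w).card

theorem rep_add (w : Word) : rep w + (pts w).card = w.length + 1 := by
  have := card_pts_le w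
  unfold rep; omega

theorem saw.card_pts {w : Word} (h : saw w) : (pts w).card = w.length + 1 := by
  unfold pts
  rw [card_image_of_injOn, card_range]
  intro i hi j hj hij
  rw [coe_range, Set.mem_Iio] at hi hj
  rw [saw_iff] at h
  rcases lt_trichotomy i j with h1 | h1 | h1
  · exact absurd hij (h i j h1 (by omega))
  · exact h1
  · exact absurd hij.symm (h j i h1 (by omega))

theorem saw.rep {w : Word} (h : saw w) : SwP.rep w = 0 := by
  unfold SwP.rep
  rw [h.card_pts]; simp

theorem rep_append (u v : Word) : rep (u ++ v) = rep u + rep v +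
    ((pts u).erase (D u) ∩ tr (D u) (pts v)).card := by
  have h1 := rep_add (u ++ v)
  have h2 := rep_add u
  have h3 := rep_add v
  have h4 := card_union_add_card_inter (pts u) (tr (D u) (pts v))
  rw [← pts_append, card_tr] at h4
  have h5 : (pts u ∩ tr (D u) (pts v)).card
      = ((pts u).erase (D u) ∩ tr (D u) (pts v)).card + 1 := by
    rw [erase_inter, card_erase_add_one]
    rw [mem_inter, mem_tr]
    exact ⟨D_mem_pts u, by simpa using zero_mem_pts v⟩
  rw [List.length_append] at h1
  omega

/-- removing a shortest block with zero displacement -/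
theorem exists_loop {w : Word} (hw : ¬ saw w) : ∃ a u b : Word, w = a ++ (u ++ b) ∧ u ≠ [] ∧
    D u = 0 ∧ (∀ c e d : Word, u = c ++ (e ++ d) → e ≠ [] → (c ≠ [] ∨ d ≠ []) → D e ≠ 0) ∧
    rep (a ++ b) + 1 ≤ rep w := by
  unfold saw at hw
  push Not at hw
  obtain ⟨a0, u0, b0, h0, hne0, hD0⟩ := hw
  have hex : ∃ n : ℕ, ∃ a u b : Word, w = a ++ (u ++ b) ∧ u ≠ [] ∧ D u = 0 ∧ u.length = n :=
    ⟨u0.length, a0, u0, b0, h0, hne0, hD0, rfl⟩
  obtain ⟨a, u, b, h1, hne, hD, hlen⟩ := Nat.find_spec hex
  refine ⟨a, u, b, h1, hne, hD, ?_, ?_⟩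
  · intro c e d hu hene hcd hDe
    have hmin : Nat.find hex ≤ e.length := by
      refine Nat.find_min' hex ⟨a ++ c, e, d ++ b, ?_, hene, hDe, rfl⟩
      rw [h1, hu]; simp
    have hl := congrArg List.length hu
    rw [List.length_append, List.length_append] at hl
    rcases hcd with h | h
    · have := List.length_pos_of_ne_nil h; omega
    · have := List.length_pos_of_ne_nil h; omega
  · have hulen := List.length_pos_of_ne_nil hne
    have hsub : pts w ⊆ pts (a ++ b) ∪ (Finset.Ioo 0 u.length).image
        (fun i => D a + D (u.take i)) := by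
      intro p hp
      rw [h1, pts_append, pts_append] at hp
      simp only [mem_union, mem_tr] at hp
      rw [mem_union, pts_append, mem_union, mem_tr]
      rcases hp with hp | hp | hp
      · left; left; exact hp
      · obtain ⟨i, hi, hi2⟩ := mem_image.1 hp
        rw [mem_range] at hi
        by_cases hi0 : i = 0
        · left; left
          subst hi0
          simp only [List.take_zero, D_nil] at hi2
          rw [sub_eq_zero.1 hi2.symm]
          exact D_mem_pts a
        by_cases hi1 : i = u.length
        · left; left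
          subst hi1
          rw [List.take_length, hD] at hi2
          rw [sub_eq_zero.1 hi2.symm]
          exact D_mem_pts a
        · right
          refine mem_image.2 ⟨i, ?_, ?_⟩
          · rw [mem_Ioo]; omega
          · rw [hi2]; abel
      · left; right
        rwa [hD, sub_zero] at hp
    have hc := card_le_card hsub
    have hc2 := hc.trans (card_union_le _ _)
    have hc3 : ((Finset.Ioo 0 u.length).image (fun i => D a + D (u.take i))).card
        ≤ u.length - 1 := by
      refine card_image_le.trans ?_
      simp
    have r1 := rep_add w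
    have r2 := rep_add (a ++ b)
    have hl := congrArg List.length h1
    rw [List.length_append, List.length_append] at hl
    rw [List.length_append] at r2
    omega

theorem saw_of_rep {w : Word} (h : rep w = 0) : saw w := by
  by_contra hw
  obtain ⟨a, u, b, -, -, -, -, h5⟩ := exists_loop hw
  omega

end Pool.Agent.SwP
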