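import Pool.Agent.SwP.HW

/-! Transverse unfolding of bridges. -/

namespace Pool.Agent.SwP

variable [Pool.Agent.SwP.Dim]

open Finset
open scoped Classical

theorem Br.map {w : Word} (h : Br w) (S : Sy) (hS : ∀ v, S.A v 0 = v 0) : Br (w.map S.g) := by
  refine ⟨h.saw.map S, ?_, ?_⟩
  · intro a u hau
    obtain ⟨a', u', h1, h2, h3⟩ := List.map_eq_append_iff.1 hau
    rw [← h3, S.D_map, hS]
    exact h.lo a' u' h1
  · intro u b hub hne
    obtain ⟨u', b', h1, h2, h3⟩ := List.map_eq_append_iff.1 hub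
    rw [← h2, S.D_map, hS]
    refine h.hi u' b' h1 ?_
    intro h0; apply hne; rw [← h2, h0]; rfl

/-- **Subadditivity** of the total weight of bridges of length at most `n`. -/
theorem V_subadd {μ : ℝ} (hμ : 1 ≤ μ) (hb : ∀ n, ((brs n).card : ℝ) ≤ μ ^ n) (n m : ℕ) :
    V μ⁻¹ (n + m) ≤ V μ⁻¹ n + V μ⁻¹ m := by
  have hx : (0 : ℝ) ≤ μ⁻¹ := by positivity
  set C : Finset Word := (wle (n + m)).filter (fun w => Br w ∧ n < w.length ∧
    ∀ a b : Word, w = a ++ b → n < a.length → Lo a → Hi b → b = []) with hC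
  have h1 : ∑ u ∈ C, (μ⁻¹) ^ u.length ≤ 1 := by
    refine power_trick hμ hb C (n + m) ?_ ?_ ?_
    · intro u hu; exact (mem_filter.1 hu).2.1
    · intro u hu; exact mem_wle.1 (mem_filter.1 hu).1
    · intro u hu u' hu' e he hH
      have hu1 := (mem_filter.1 hu).2
      exact (mem_filter.1 hu').2.2.2 u e he hu1.2.1 hu1.1.lo hH
  have h2 : ∑ w ∈ ((wle (n + m)).filter Br).filter (fun w => n < w.length), (μ⁻¹) ^ w.length
      ≤ (∑ u ∈ C, (μ⁻¹) ^ u.length) * V μ⁻¹ m := by
    unfold V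
    rw [sum_mul_sum, ← sum_product']
    have hcut : ∀ w : Word, ∃ p : Word × Word, w = p.1 ++ p.2 ∧ (Br w → n < w.length →
        n < p.1.length ∧ Lo p.1 ∧ Hi p.2 ∧
        ∀ a b : Word, w = a ++ b → n < a.length → Lo a → Hi b → p.1.length ≤ a.length) := by
      intro w
      by_cases hw : Br w ∧ n < w.length
      · have hex : ∃ l : ℕ, ∃ a b : Word, w = a ++ b ∧ n < a.length ∧ Lo a ∧ Hi b ∧
            a.length = l := ⟨w.length, w, [], by simp, hw.2, hw.1.lo, Hi_nil, rfl⟩
        obtain ⟨a, b, h3, h4, h5, h6, h7⟩ := Nat.find_spec hex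
        refine ⟨(a, b), h3, fun _ _ => ⟨h4, h5, h6, ?_⟩⟩
        intro a' b' h8 h9 h10 h11
        simp only
        rw [h7]
        exact Nat.find_min' hex ⟨a', b', h8, h9, h10, h11, rfl⟩
      · exact ⟨([], w), rfl, fun h3 h4 => absurd ⟨h3, h4⟩ hw⟩
    choose p hp1 hp2 using hcut
    refine sum_le_of_inj p ?_ ?_ ?_ ?_
    · intro w hw
      rw [mem_filter, mem_filter, mem_wle] at hw
      obtain ⟨⟨h3, h4⟩, h5⟩ := hw
      obtain ⟨h6, h7, h8, h9⟩ := hp2 w h4 h5
      have hl := congrArg List.length (hp1 w)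
      rw [List.length_append] at hl
      have hs := h4.saw
      rw [hp1 w] at hs
      have hl1 := h4.lo
      rw [hp1 w] at hl1
      have hh1 := h4.hi
      rw [hp1 w] at hh1
      rw [mem_product, hC, mem_filter, mem_filter, mem_wle, mem_wle]
      refine ⟨⟨by omega, ⟨hs.left, h7, hh1.left⟩, h6, ?_⟩, by omega, hs.right, hl1.right, h8⟩
      intro a b hab h10 h11 h12
      have h13 := h9 a (b ++ (p w).2) (by rw [← List.append_assoc, ← hab]; exact hp1 w) h10 h11
        (h12.append h8)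
      have h14 := congrArg List.length hab
      rw [List.length_append] at h14
      exact List.eq_nil_of_length_eq_zero (by omega)
    · intro w _ w' _ heq
      rw [hp1 w, hp1 w', heq]
    · intro w _
      rw [← pow_add, ← List.length_append, ← hp1 w]
    · intro q _
      positivity
  have h3 : V μ⁻¹ (n + m) = V μ⁻¹ n
      + ∑ w ∈ ((wle (n + m)).filter Br).filter (fun w => n < w.length), (μ⁻¹) ^ w.length := by
    unfold V
    rw [← sum_filter_add_sum_filter_not ((wle (n + m)).filter Br) (fun w => n < w.length),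
      add_comm]
    congr 1
    refine sum_congr ?_ fun _ _ => rfl
    ext w
    simp only [mem_filter, mem_wle]
    constructor
    · rintro ⟨⟨_, h4⟩, h5⟩; exact ⟨by omega, h4⟩
    · rintro ⟨h4, h5⟩; exact ⟨⟨by omega, h5⟩, by omega⟩
  have hV : 0 ≤ V μ⁻¹ m := by
    rw [V_eq]; have := Zt_nonneg hx m; linarith
  rw [h3]
  have h4 : (∑ u ∈ C, (μ⁻¹) ^ u.length) * V μ⁻¹ m ≤ 1 * V μ⁻¹ m :=
    mul_le_mul_of_nonneg_right h1 hV
  linarith

theorem V_mul {μ : ℝ} (hμ : 1 ≤ μ) (hb : ∀ n, ((brs n).card : ℝ) ≤ μ ^ n) (k n : ℕ) :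
    V μ⁻¹ (k * n) ≤ 1 + k * V μ⁻¹ n := by
  have hx : (0 : ℝ) ≤ μ⁻¹ := by positivity
  induction k with
  | zero =>
    rw [zero_mul, V_sum]
    simp only [zero_add, sum_range_one, pow_zero, mul_one, Nat.cast_zero, zero_mul, add_zero]
    have := hb 0
    simpa using this
  | succ k ih =>
    rw [Nat.succ_mul]
    refine (V_subadd hμ hb (k * n) n).trans ?_
    push_cast
    linarith

end Pool.Agent.SwP
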