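import Pool.Agent.SwP.Chain
import Pool.Agent.SwP.Block
import Pool.Agent.SwP.Unfold

/-! The induction over the scales. -/

namespace Pool.Agent.SwP

variable [Pool.Agent.SwP.Dim]
set_option maxHeartbeats 400000

open Finset Filter
open scoped Classical

/-- the number of bridges is large at the scale `m ^ (d - g + 1)` -/
def Bad (μ : ℝ) (d g m : ℕ) : Prop := (m : ℝ) ^ g < Zt μ⁻¹ (m ^ (d - g + 1))

end Pool.Agent.SwP
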