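import Pool.Agent.SwP.Step

/-! The induction step over the scales. -/

namespace Pool.Agent.SwP

variable [Pool.Agent.SwP.Dim]
set_option maxHeartbeats 1000000

open Finset Filter
open scoped Classical

theorem log_cast_le {m : ℕ} (hm : 1 ≤ m) : Real.log m ≤ m := by
  have h : (0 : ℝ) < m := by exact_mod_cast hm
  have := Real.log_le_sub_one_of_pos h
  linarith

theorem log_succ_le {m d : ℕ} (hm : 2 ≤ m) : Real.log (((m ^ d : ℕ) : ℝ) + 1) ≤ (d + 1) * m := by
  have hm' : (2 : ℝ) ≤ m := by exact_mod_cast hm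
  have h1 : (1 : ℝ) ≤ (m : ℝ) ^ d := one_le_pow₀ (by linarith)
  have h2 : ((m ^ d : ℕ) : ℝ) + 1 ≤ (m : ℝ) ^ (d + 1) := by
    push_cast
    rw [pow_succ]
    nlinarith
  calc Real.log (((m ^ d : ℕ) : ℝ) + 1) ≤ Real.log ((m : ℝ) ^ (d + 1)) :=
        Real.log_le_log (by positivity) h2
    _ = (d + 1) * Real.log m := by rw [Real.log_pow]; push_cast; ring
    _ ≤ _ := mul_le_mul_of_nonneg_left (log_cast_le (by omega)) (by positivity)

end Pool.Agent.SwP
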